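import Mathlib

/-!
A small self-contained library for the Shannon entropy of functions on a finite
weighted space.  A law is a function `p : Ω → ℝ` on a finite type, usually with
`∀ ω, 0 ≤ p ω` and `∑ ω, p ω = 1`.
-/

namespace Pool.Agent.H49.Ent

open Finset Real
open scoped BigOperators

universe u

variable {Ω : Type*} [Fintype Ω] {S T U V : Type*}

open Classical in
/-- the mass that `p` gives to the event `X = s` -/
noncomputable def law (p : Ω → ℝ) (X : Ω → S) (s : S) : ℝ :=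
  ∑ ω, if X ω = s then p ω else 0

/-- the entropy of `X` under the law `p` -/
noncomputable def H (p : Ω → ℝ) (X : Ω → S) : ℝ :=
  -∑ ω, p ω * Real.log (law p X (X ω))

/-- `X` determines `Y` on the support of `p` -/
def Det (p : Ω → ℝ) (X : Ω → S) (Y : Ω → T) : Prop :=
  ∀ ω ω', 0 < p ω → 0 < p ω' → X ω = X ω' → Y ω = Y ω'

theorem law_nonneg {p : Ω → ℝ} (hp : ∀ ω, 0 ≤ p ω) (X : Ω → S) (s : S) : 0 ≤ law p X s := by
  classical
  unfold law
  exact Finset.sum_nonneg (fun ω _ => by split_ifs; exacts [hp ω, le_rfl])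

theorem le_law {p : Ω → ℝ} (hp : ∀ ω, 0 ≤ p ω) (X : Ω → S) (ω : Ω) : p ω ≤ law p X (X ω) := by
  classical
  unfold law
  have h := Finset.single_le_sum (f := fun ω' => if X ω' = X ω then p ω' else 0)
    (fun ω' _ => by split_ifs; exacts [hp ω', le_rfl]) (Finset.mem_univ ω)
  simpa using h

theorem law_pos {p : Ω → ℝ} (hp : ∀ ω, 0 ≤ p ω) (X : Ω → S) {ω : Ω} (h : 0 < p ω) :
    0 < law p X (X ω) := lt_of_lt_of_le h (le_law hp X ω)

theorem law_le_total {p : Ω → ℝ} (hp : ∀ ω, 0 ≤ p ω) (X : Ω → S) (s : S) :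
    law p X s ≤ ∑ ω, p ω := by
  classical
  unfold law
  exact Finset.sum_le_sum (fun ω _ => by split_ifs; exacts [le_rfl, hp ω])

theorem law_mono_of_det {p : Ω → ℝ} (hp : ∀ ω, 0 ≤ p ω) {X : Ω → S} {Y : Ω → T}
    (h : Det p X Y) {ω : Ω} (hω : 0 < p ω) : law p X (X ω) ≤ law p Y (Y ω) := by
  classical
  unfold law
  refine Finset.sum_le_sum (fun ω' _ => ?_)
  by_cases h0 : p ω' = 0
  · simp [h0]
  · have hω' : 0 < p ω' := lt_of_le_of_ne (hp ω') (Ne.symm h0)
    by_cases h1 : X ω' = X ω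
    · rw [if_pos h1, if_pos (h ω' ω hω' hω h1)]
    · rw [if_neg h1]; split_ifs; exacts [hp ω', le_rfl]

/-- Monotonicity: a determined variable has smaller entropy. -/
theorem H_mono {p : Ω → ℝ} (hp : ∀ ω, 0 ≤ p ω) {X : Ω → S} {Y : Ω → T}
    (h : Det p X Y) : H p Y ≤ H p X := by
  unfold H
  refine neg_le_neg (Finset.sum_le_sum (fun ω _ => ?_))
  by_cases h0 : p ω = 0
  · simp [h0]
  · have hω : 0 < p ω := lt_of_le_of_ne (hp ω) (Ne.symm h0)
    exact mul_le_mul_of_nonneg_left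
      (Real.log_le_log (law_pos hp X hω) (law_mono_of_det hp h hω)) hω.le

theorem H_congr {p : Ω → ℝ} (hp : ∀ ω, 0 ≤ p ω) {X : Ω → S} {Y : Ω → T}
    (h : Det p X Y) (h' : Det p Y X) : H p Y = H p X :=
  le_antisymm (H_mono hp h) (H_mono hp h')

theorem H_comp_le {p : Ω → ℝ} (hp : ∀ ω, 0 ≤ p ω) (X : Ω → S) (f : S → T) :
    H p (fun ω => f (X ω)) ≤ H p X :=
  H_mono hp (fun _ _ _ _ h => congrArg f h)

theorem H_comp_injective {p : Ω → ℝ} (hp : ∀ ω, 0 ≤ p ω) (X : Ω → S) {f : S → T}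
    (hf : Function.Injective f) : H p (fun ω => f (X ω)) = H p X :=
  H_congr hp (fun _ _ _ _ h => congrArg f h) (fun _ _ _ _ h => hf h)

theorem H_nonneg {p : Ω → ℝ} (hp : ∀ ω, 0 ≤ p ω) (h1 : ∑ ω, p ω = 1) (X : Ω → S) :
    0 ≤ H p X := by
  unfold H
  rw [neg_nonneg]
  refine Finset.sum_nonpos (fun ω _ => ?_)
  by_cases h0 : p ω = 0
  · simp [h0]
  · have hω : 0 < p ω := lt_of_le_of_ne (hp ω) (Ne.symm h0)
    refine mul_nonpos_of_nonneg_of_nonpos hω.le ?_
    exact Real.log_nonpos (law_pos hp X hω).le (h1 ▸ law_le_total hp X _)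

theorem H_const {p : Ω → ℝ} (h1 : ∑ ω, p ω = 1) (s : S) : H p (fun _ => s) = 0 := by
  classical
  unfold H law
  simp [h1]

/-- Rewriting sums of a function of `X` weighted by `p`, as a sum over values. -/
theorem sum_mul_eq_sum_image [DecidableEq S] (p : Ω → ℝ) (X : Ω → S) (g : S → ℝ) :
    ∑ ω, p ω * g (X ω) = ∑ s ∈ univ.image X, law p X s * g s := by
  classical
  unfold law
  simp_rw [Finset.sum_mul]
  rw [Finset.sum_comm]
  refine Finset.sum_congr rfl (fun ω _ => ?_)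
  rw [Finset.sum_eq_single (X ω)]
  · simp
  · intro s _ hs
    rw [if_neg (Ne.symm hs)]; simp
  · intro h
    exact absurd (Finset.mem_image_of_mem X (Finset.mem_univ ω)) h

theorem sum_law [DecidableEq S] (p : Ω → ℝ) (X : Ω → S) :
    ∑ s ∈ univ.image X, law p X s = ∑ ω, p ω := by
  have := sum_mul_eq_sum_image p X (fun _ => (1 : ℝ))
  simpa using this.symm

/-- The usual formula for the entropy. -/
theorem H_eq_sum_image [DecidableEq S] (p : Ω → ℝ) (X : Ω → S) :
    H p X = ∑ s ∈ univ.image X, negMulLog (law p X s) := by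
  unfold H
  rw [sum_mul_eq_sum_image p X (fun s => Real.log (law p X s)), ← Finset.sum_neg_distrib]
  refine Finset.sum_congr rfl (fun s _ => ?_)
  unfold negMulLog
  ring

theorem law_eq_zero_of_notMem [DecidableEq S] (p : Ω → ℝ) (X : Ω → S) {s : S}
    (hs : s ∉ univ.image X) : law p X s = 0 := by
  classical
  unfold law
  refine Finset.sum_eq_zero (fun ω _ => ?_)
  rw [if_neg]
  rintro rfl
  exact hs (Finset.mem_image_of_mem X (Finset.mem_univ ω))

theorem H_eq_sum_of_subset [DecidableEq S] (p : Ω → ℝ) (X : Ω → S) {F : Finset S}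
    (hF : univ.image X ⊆ F) : H p X = ∑ s ∈ F, negMulLog (law p X s) := by
  rw [H_eq_sum_image]
  refine Finset.sum_subset hF (fun s _ hs => ?_)
  rw [law_eq_zero_of_notMem p X hs]
  simp

/-- Gibbs-type bound: entropy is at most the logarithm of the size of any finite set that
contains the values on the support. -/
theorem H_le_log_card {p : Ω → ℝ} (hp : ∀ ω, 0 ≤ p ω) (h1 : ∑ ω, p ω = 1) (X : Ω → S)
    (F : Finset S) (hF : ∀ ω, 0 < p ω → X ω ∈ F) : H p X ≤ Real.log F.card := by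
  classical
  obtain ⟨ω0, hω0⟩ : ∃ ω, 0 < p ω := by
    by_contra hcon
    push Not at hcon
    have : ∑ ω, p ω = 0 := Finset.sum_eq_zero (fun ω _ => le_antisymm (hcon ω) (hp ω))
    linarith
  have hn : (0 : ℝ) < F.card := by
    have := Finset.card_pos.mpr ⟨_, hF ω0 hω0⟩
    exact_mod_cast this
  -- sum of p/law over the support is at most the number of values
  have key : ∑ ω, p ω * (law p X (X ω))⁻¹ ≤ F.card := by
    rw [sum_mul_eq_sum_image p X (fun s => (law p X s)⁻¹)]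
    have h2 : ∀ s ∈ univ.image X, law p X s * (law p X s)⁻¹ ≤ if s ∈ F then 1 else 0 := by
      intro s _
      by_cases hl : law p X s = 0
      · rw [hl]; simp; split_ifs <;> norm_num
      · rw [mul_inv_cancel₀ hl]
        have : s ∈ F := by
          by_contra hs
          apply hl
          unfold law
          refine Finset.sum_eq_zero (fun ω _ => ?_)
          split_ifs with h
          · by_contra h0
            have hω : 0 < p ω := lt_of_le_of_ne (hp ω) (Ne.symm h0)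
            exact hs (h ▸ hF ω hω)
          · rfl
        rw [if_pos this]
    calc ∑ s ∈ univ.image X, law p X s * (law p X s)⁻¹
        ≤ ∑ s ∈ univ.image X, (if s ∈ F then (1:ℝ) else 0) := Finset.sum_le_sum h2
      _ = (((univ.image X).filter (fun s => s ∈ F)).card : ℝ) := by
          rw [Finset.sum_boole]
      _ ≤ F.card := by
          exact_mod_cast Finset.card_le_card (fun s hs => (Finset.mem_filter.mp hs).2)
  have h3 : ∀ ω, p ω * (-Real.log (law p X (X ω))) ≤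
      p ω * Real.log F.card + (p ω * (law p X (X ω))⁻¹ * (F.card : ℝ)⁻¹ - p ω) := by
    intro ω
    by_cases h0 : p ω = 0
    · simp [h0]
    · have hω : 0 < p ω := lt_of_le_of_ne (hp ω) (Ne.symm h0)
      have hl := law_pos hp X hω
      have h4 := Real.log_le_sub_one_of_pos (x := (law p X (X ω))⁻¹ * (F.card : ℝ)⁻¹)
        (by positivity)
      rw [Real.log_mul (by positivity) (by positivity), Real.log_inv, Real.log_inv] at h4
      have := mul_le_mul_of_nonneg_left h4 hω.le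
      nlinarith [this]
  have h5 : H p X = ∑ ω, p ω * (-Real.log (law p X (X ω))) := by
    unfold H
    rw [← Finset.sum_neg_distrib]
    exact Finset.sum_congr rfl (fun ω _ => by ring)
  rw [h5]
  calc ∑ ω, p ω * (-Real.log (law p X (X ω)))
      ≤ ∑ ω, (p ω * Real.log F.card + (p ω * (law p X (X ω))⁻¹ * (F.card : ℝ)⁻¹ - p ω)) :=
        Finset.sum_le_sum (fun ω _ => h3 ω)
    _ = Real.log F.card + ((∑ ω, p ω * (law p X (X ω))⁻¹) * (F.card : ℝ)⁻¹ - 1) := by
        rw [Finset.sum_add_distrib, Finset.sum_sub_distrib, ← Finset.sum_mul, ← Finset.sum_mul,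
          h1]
        ring
    _ ≤ Real.log F.card + (F.card * (F.card : ℝ)⁻¹ - 1) := by
        have := mul_le_mul_of_nonneg_right key (inv_nonneg.mpr hn.le)
        linarith
    _ = Real.log F.card := by
        rw [mul_inv_cancel₀ hn.ne']; ring

/-- Entropy of an injective function under the uniform law. -/
theorem H_uniform [Nonempty Ω] {X : Ω → S} (hX : Function.Injective X) :
    H (fun _ : Ω => (Fintype.card Ω : ℝ)⁻¹) X = Real.log (Fintype.card Ω) := by
  classical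
  have hc : (0 : ℝ) < Fintype.card Ω := by exact_mod_cast Fintype.card_pos
  unfold H law
  have : ∀ ω : Ω, (∑ ω', if X ω' = X ω then (Fintype.card Ω : ℝ)⁻¹ else 0)
      = (Fintype.card Ω : ℝ)⁻¹ := by
    intro ω
    rw [Finset.sum_eq_single ω]
    · simp
    · intro b _ hb
      rw [if_neg (fun h => hb (hX h))]
    · intro h; exact absurd (Finset.mem_univ ω) h
  simp_rw [this]
  rw [Finset.sum_const, Finset.card_univ, Real.log_inv, nsmul_eq_mul]
  field_simp

/-- Basic submodularity. -/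
theorem submod_aux {p : Ω → ℝ} (hp : ∀ ω, 0 ≤ p ω) {X : Ω → S} {Y : Ω → T} {Z : Ω → U}
    (hX : Det p X Z) (hY : Det p Y Z) :
    H p (fun ω => (X ω, Y ω)) + H p Z ≤ H p X + H p Y := by
  classical
  set W : Ω → S × T := fun ω => (X ω, Y ω) with hW
  -- the key estimate
  have key : ∑ ω, p ω * (law p X (X ω) * law p Y (Y ω) * (law p W (W ω))⁻¹ * (law p Z (Z ω))⁻¹)
      ≤ ∑ ω, p ω := by
    have e1 : ∑ ω, p ω * (law p X (X ω) * law p Y (Y ω) * (law p W (W ω))⁻¹ * (law p Z (Z ω))⁻¹)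
        = ∑ ω1, ∑ ω2, ∑ ω, p ω1 * p ω2 * (if X ω1 = X ω ∧ Y ω2 = Y ω then
            p ω * ((law p W (W ω))⁻¹ * (law p Z (Z ω))⁻¹) else 0) := by
      have : ∀ ω, p ω * (law p X (X ω) * law p Y (Y ω) * (law p W (W ω))⁻¹ * (law p Z (Z ω))⁻¹)
          = ∑ ω1, ∑ ω2, p ω1 * p ω2 * (if X ω1 = X ω ∧ Y ω2 = Y ω then
            p ω * ((law p W (W ω))⁻¹ * (law p Z (Z ω))⁻¹) else 0) := by
        intro ω
        have hXY : law p X (X ω) * law p Y (Y ω) = ∑ ω1, ∑ ω2,
            (if X ω1 = X ω then p ω1 else 0) * (if Y ω2 = Y ω then p ω2 else 0) := by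
          unfold law
          rw [Finset.sum_mul_sum]
        rw [show p ω * (law p X (X ω) * law p Y (Y ω) * (law p W (W ω))⁻¹ * (law p Z (Z ω))⁻¹)
          = (law p X (X ω) * law p Y (Y ω)) * (p ω * ((law p W (W ω))⁻¹ * (law p Z (Z ω))⁻¹))
          from by ring, hXY, Finset.sum_mul]
        refine Finset.sum_congr rfl (fun ω1 _ => ?_)
        rw [Finset.sum_mul]
        refine Finset.sum_congr rfl (fun ω2 _ => ?_)
        by_cases h1 : X ω1 = X ω <;> by_cases h2 : Y ω2 = Y ω <;> simp [h1, h2]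
      rw [Finset.sum_congr rfl (fun ω _ => this ω), Finset.sum_comm]
      refine Finset.sum_congr rfl (fun ω1 _ => ?_)
      rw [Finset.sum_comm]
    rw [e1]
    -- bound the inner sum
    have e2 : ∀ ω1 ω2, p ω1 * p ω2 * (∑ ω, (if X ω1 = X ω ∧ Y ω2 = Y ω then
            p ω * ((law p W (W ω))⁻¹ * (law p Z (Z ω))⁻¹) else 0))
          ≤ p ω1 * (law p Z (Z ω1))⁻¹ * (if Z ω2 = Z ω1 then p ω2 else 0) := by
      intro ω1 ω2
      by_cases h01 : p ω1 = 0
      · simp [h01]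
      by_cases h02 : p ω2 = 0
      · simp [h02]
      have hω1 : 0 < p ω1 := lt_of_le_of_ne (hp ω1) (Ne.symm h01)
      have hω2 : 0 < p ω2 := lt_of_le_of_ne (hp ω2) (Ne.symm h02)
      by_cases hex : ∃ ω, 0 < p ω ∧ X ω1 = X ω ∧ Y ω2 = Y ω
      · obtain ⟨ω, hω, hx, hy⟩ := hex
        have hz1 : Z ω1 = Z ω := hX _ _ hω1 hω hx
        have hz2 : Z ω2 = Z ω := hY _ _ hω2 hω hy
        rw [if_pos (hz2.trans hz1.symm)]
        have hsum : (∑ ω', (if X ω1 = X ω' ∧ Y ω2 = Y ω' then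
            p ω' * ((law p W (W ω'))⁻¹ * (law p Z (Z ω'))⁻¹) else 0))
            = (∑ ω', if W ω' = W ω then p ω' else 0) *
                ((law p W (W ω))⁻¹ * (law p Z (Z ω1))⁻¹) := by
          rw [Finset.sum_mul]
          refine Finset.sum_congr rfl (fun ω' _ => ?_)
          by_cases h0 : p ω' = 0
          · simp [h0]
          have hω' : 0 < p ω' := lt_of_le_of_ne (hp ω') (Ne.symm h0)
          by_cases hc : X ω1 = X ω' ∧ Y ω2 = Y ω'
          · have hWW : W ω' = W ω := by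
              simp only [hW, Prod.mk.injEq]
              exact ⟨hc.1.symm.trans hx, hc.2.symm.trans hy⟩
            rw [if_pos hc, if_pos hWW, hWW, hX ω1 ω' hω1 hω' hc.1]
          · have hWW : ¬ (W ω' = W ω) := by
              simp only [hW, Prod.mk.injEq]
              rintro ⟨h1, h2⟩
              exact hc ⟨hx.trans h1.symm, hy.trans h2.symm⟩
            rw [if_neg hc, if_neg hWW]; simp
        rw [hsum]
        have hlW : (∑ ω', if W ω' = W ω then p ω' else 0) = law p W (W ω) := by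
          unfold law
          exact Finset.sum_congr rfl (fun ω' _ => by congr)
        rw [hlW, ← mul_assoc (law p W (W ω)), mul_inv_cancel₀ (law_pos hp W hω).ne', one_mul]
        apply le_of_eq; ring
      · have hz : (∑ ω, (if X ω1 = X ω ∧ Y ω2 = Y ω then
            p ω * ((law p W (W ω))⁻¹ * (law p Z (Z ω))⁻¹) else 0)) = 0 := by
          refine Finset.sum_eq_zero (fun ω _ => ?_)
          split_ifs with h
          · have : p ω = 0 := by
              by_contra h0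
              exact hex ⟨ω, lt_of_le_of_ne (hp ω) (Ne.symm h0), h.1, h.2⟩
            rw [this]; simp
          · rfl
        rw [hz, mul_zero]
        have : 0 ≤ law p Z (Z ω1) := law_nonneg hp Z _
        split_ifs <;> positivity
    calc ∑ ω1, ∑ ω2, ∑ ω, p ω1 * p ω2 * (if X ω1 = X ω ∧ Y ω2 = Y ω then
            p ω * ((law p W (W ω))⁻¹ * (law p Z (Z ω))⁻¹) else 0)
        = ∑ ω1, ∑ ω2, p ω1 * p ω2 * (∑ ω, (if X ω1 = X ω ∧ Y ω2 = Y ω then
            p ω * ((law p W (W ω))⁻¹ * (law p Z (Z ω))⁻¹) else 0)) := by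
          simp_rw [Finset.mul_sum]
      _ ≤ ∑ ω1, ∑ ω2, p ω1 * (law p Z (Z ω1))⁻¹ * (if Z ω2 = Z ω1 then p ω2 else 0) :=
          Finset.sum_le_sum (fun ω1 _ => Finset.sum_le_sum (fun ω2 _ => e2 ω1 ω2))
      _ = ∑ ω1, p ω1 * (law p Z (Z ω1))⁻¹ * law p Z (Z ω1) := by
          refine Finset.sum_congr rfl (fun ω1 _ => ?_)
          rw [← Finset.mul_sum]; rfl
      _ ≤ ∑ ω1, p ω1 := by
          refine Finset.sum_le_sum (fun ω1 _ => ?_)
          by_cases h0 : law p Z (Z ω1) = 0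
          · rw [h0]; simp [hp ω1]
          · rw [mul_assoc, inv_mul_cancel₀ h0, mul_one]
  have h3 : ∀ ω, p ω * (Real.log (law p X (X ω)) + Real.log (law p Y (Y ω))
        - Real.log (law p W (W ω)) - Real.log (law p Z (Z ω)))
      ≤ p ω * (law p X (X ω) * law p Y (Y ω) * (law p W (W ω))⁻¹ * (law p Z (Z ω))⁻¹) - p ω := by
    intro ω
    by_cases h0 : p ω = 0
    · simp [h0]
    have hω : 0 < p ω := lt_of_le_of_ne (hp ω) (Ne.symm h0)
    have a1 := law_pos hp X hω
    have a2 := law_pos hp Y hω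
    have a3 := law_pos hp W hω
    have a4 := law_pos hp Z hω
    have h4 := Real.log_le_sub_one_of_pos
      (x := law p X (X ω) * law p Y (Y ω) * (law p W (W ω))⁻¹ * (law p Z (Z ω))⁻¹)
      (by positivity)
    rw [Real.log_mul (by positivity) (by positivity), Real.log_mul (by positivity) (by positivity),
      Real.log_mul (by positivity) (by positivity), Real.log_inv, Real.log_inv] at h4
    have := mul_le_mul_of_nonneg_left h4 hω.le
    nlinarith [this]
  have h6 := Finset.sum_le_sum (fun ω (_ : ω ∈ Finset.univ) => h3 ω)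
  rw [Finset.sum_sub_distrib] at h6
  have h7 : ∑ ω, p ω * (Real.log (law p X (X ω)) + Real.log (law p Y (Y ω))
        - Real.log (law p W (W ω)) - Real.log (law p Z (Z ω)))
      = H p W + H p Z - H p X - H p Y := by
    unfold H
    simp only [mul_sub, mul_add, Finset.sum_sub_distrib, Finset.sum_add_distrib]
    ring
  rw [h7] at h6
  linarith [key, h6]

/-- Submodularity: if `X` and `Y` both determine `Z` and together determine `W`, then
`H(W) + H(Z) ≤ H(X) + H(Y)`. -/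
theorem submod {p : Ω → ℝ} (hp : ∀ ω, 0 ≤ p ω) {X : Ω → S} {Y : Ω → T} {Z : Ω → U} {W : Ω → V}
    (hX : Det p X Z) (hY : Det p Y Z) (hW : Det p (fun ω => (X ω, Y ω)) W) :
    H p W + H p Z ≤ H p X + H p Y := by
  have h1 := submod_aux hp hX hY
  have h2 := H_mono hp hW
  linarith

/-- Subadditivity. -/
theorem subadd {p : Ω → ℝ} (hp : ∀ ω, 0 ≤ p ω) (h1 : ∑ ω, p ω = 1)
    {X : Ω → S} {Y : Ω → T} {W : Ω → V}
    (hW : Det p (fun ω => (X ω, Y ω)) W) :
    H p W ≤ H p X + H p Y := by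
  have h := submod hp (X := X) (Y := Y) (Z := fun _ => ()) (W := W)
    (fun _ _ _ _ _ => rfl) (fun _ _ _ _ _ => rfl) hW
  rw [H_const h1] at h
  linarith

/-! ### Conditioning -/

/-- conditional entropy `H(X | Z)` -/
noncomputable def CH (p : Ω → ℝ) (X : Ω → S) (Z : Ω → T) : ℝ :=
  H p (fun ω => (X ω, Z ω)) - H p Z

open Classical in
/-- the law conditioned on the event `Z = z` -/
noncomputable def cond (p : Ω → ℝ) (Z : Ω → T) (z : T) (ω : Ω) : ℝ :=
  if Z ω = z then p ω / law p Z z else 0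

theorem cond_nonneg {p : Ω → ℝ} (hp : ∀ ω, 0 ≤ p ω) (Z : Ω → T) (z : T) (ω : Ω) :
    0 ≤ cond p Z z ω := by
  unfold cond
  split_ifs
  · exact div_nonneg (hp ω) (law_nonneg hp Z z)
  · exact le_rfl

theorem sum_cond (p : Ω → ℝ) (Z : Ω → T) {z : T} (hz : law p Z z ≠ 0) :
    ∑ ω, cond p Z z ω = 1 := by
  classical
  have : ∑ ω, cond p Z z ω = law p Z z / law p Z z := by
    unfold cond law
    rw [Finset.sum_div]
    refine Finset.sum_congr rfl (fun ω _ => ?_)
    split_ifs <;> simp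
  rw [this, div_self hz]

theorem cond_pos_iff {p : Ω → ℝ} (hp : ∀ ω, 0 ≤ p ω) (Z : Ω → T) (z : T) (ω : Ω) :
    0 < cond p Z z ω ↔ 0 < p ω ∧ Z ω = z := by
  unfold cond
  constructor
  · intro h
    split_ifs at h with h1
    · refine ⟨?_, h1⟩
      by_contra h0
      have : p ω = 0 := le_antisymm (not_lt.mp h0) (hp ω)
      rw [this] at h; simp at h
    · exact absurd h (lt_irrefl _)
  · rintro ⟨h1, h2⟩
    rw [if_pos h2]
    exact div_pos h1 (h2 ▸ law_pos hp Z h1)

theorem law_cond (p : Ω → ℝ) (X : Ω → S) (Z : Ω → T) (z : T) (x : S) :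
    law (cond p Z z) X x = law p (fun ω => (X ω, Z ω)) (x, z) / law p Z z := by
  classical
  unfold law cond
  rw [Finset.sum_div]
  refine Finset.sum_congr rfl (fun ω _ => ?_)
  simp only [Prod.mk.injEq]
  by_cases h1 : X ω = x <;> by_cases h2 : Z ω = z <;> simp [h1, h2, law]

theorem law_mul_H_cond {p : Ω → ℝ} (hp : ∀ ω, 0 ≤ p ω) (X : Ω → S) (Z : Ω → T) (z : T) :
    law p Z z * H (cond p Z z) X =
      -∑ ω, (open Classical in if Z ω = z then
        p ω * (Real.log (law p (fun ω => (X ω, Z ω)) (X ω, Z ω)) - Real.log (law p Z (Z ω)))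
        else 0) := by
  classical
  unfold H
  rw [mul_neg, Finset.mul_sum]
  congr 1
  refine Finset.sum_congr rfl (fun ω _ => ?_)
  by_cases h2 : Z ω = z
  · subst h2
    rw [if_pos rfl]
    by_cases h0 : p ω = 0
    · simp [cond, h0]
    · have hω : 0 < p ω := lt_of_le_of_ne (hp ω) (Ne.symm h0)
      have hl := law_pos hp Z hω
      have hl2 := law_pos hp (fun ω => (X ω, Z ω)) hω
      rw [law_cond, Real.log_div hl2.ne' hl.ne']
      unfold cond
      rw [if_pos rfl]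
      field_simp
  · rw [if_neg h2]
    simp [cond, h2]

/-- Conditional entropy is the average of the entropies under the conditioned laws. -/
theorem CH_eq_sum [DecidableEq T] {p : Ω → ℝ} (hp : ∀ ω, 0 ≤ p ω) (X : Ω → S) (Z : Ω → T) :
    CH p X Z = ∑ z ∈ univ.image Z, law p Z z * H (cond p Z z) X := by
  classical
  simp_rw [law_mul_H_cond hp X Z]
  rw [Finset.sum_neg_distrib, Finset.sum_comm]
  trans -∑ ω, p ω * (Real.log (law p (fun ω => (X ω, Z ω)) (X ω, Z ω)) - Real.log (law p Z (Z ω)))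
  swap
  · congr 1
    refine Finset.sum_congr rfl (fun ω _ => ?_)
    symm
    rw [Finset.sum_eq_single (Z ω)]
    · simp
    · intro z _ hz; rw [if_neg (Ne.symm hz)]
    · intro h; exact absurd (Finset.mem_image_of_mem Z (Finset.mem_univ ω)) h
  unfold CH H
  simp only [mul_sub, Finset.sum_sub_distrib]
  ring

/-- A linear inequality between entropies valid under every conditioned law is valid for the
conditional entropies. -/
theorem cond_linear {ι : Type*} {p : Ω → ℝ} (hp : ∀ ω, 0 ≤ p ω) (s : Finset ι)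
    {S : ι → Type*} (X : ∀ i, Ω → S i) (c : ι → ℝ) (Z : Ω → T)
    (h : ∀ z, 0 < law p Z z → 0 ≤ ∑ i ∈ s, c i * H (cond p Z z) (X i)) :
    0 ≤ ∑ i ∈ s, c i * CH p (X i) Z := by
  classical
  simp_rw [CH_eq_sum hp, Finset.mul_sum]
  rw [Finset.sum_comm]
  refine Finset.sum_nonneg (fun z _ => ?_)
  by_cases hz : law p Z z = 0
  · simp [hz]
  · have hz' : 0 < law p Z z := lt_of_le_of_ne (law_nonneg hp Z z) (Ne.symm hz)
    have := mul_nonneg hz'.le (h z hz')
    rw [Finset.mul_sum] at this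
    refine this.trans_eq (Finset.sum_congr rfl (fun i _ => by ring))

/-! ### Concavity and reduction to injective sections -/

theorem law_add (p q : Ω → ℝ) (a b : ℝ) (X : Ω → S) (s : S) :
    law (fun ω => a * p ω + b * q ω) X s = a * law p X s + b * law q X s := by
  classical
  unfold law
  rw [Finset.mul_sum, Finset.mul_sum, ← Finset.sum_add_distrib]
  refine Finset.sum_congr rfl (fun ω _ => ?_)
  split_ifs <;> simp

/-- Concavity of the entropy in the law. -/
theorem H_concave {p q : Ω → ℝ} (hp : ∀ ω, 0 ≤ p ω) (hq : ∀ ω, 0 ≤ q ω) {a b : ℝ}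
    (ha : 0 ≤ a) (hb : 0 ≤ b) (hab : a + b = 1) (X : Ω → S) :
    a * H p X + b * H q X ≤ H (fun ω => a * p ω + b * q ω) X := by
  classical
  rw [H_eq_sum_image, H_eq_sum_image, H_eq_sum_image, Finset.mul_sum, Finset.mul_sum,
    ← Finset.sum_add_distrib]
  refine Finset.sum_le_sum (fun s _ => ?_)
  rw [law_add]
  have := Real.concaveOn_negMulLog.2 (Set.mem_Ici.mpr (law_nonneg hp X s))
    (Set.mem_Ici.mpr (law_nonneg hq X s)) ha hb hab
  simpa using this

/-- Given a nonnegative combination of entropies, one may replace the law by one for which `g`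
is injective on the support, keeping the law of `g` and not increasing the combination. -/
theorem exists_section {ι : Type*} (s : Finset ι) {Y : ι → Type*} (X : ∀ i, Ω → Y i)
    (c : ι → ℝ) (hc : ∀ i ∈ s, 0 ≤ c i) (g : Ω → S) :
    ∀ (n : ℕ) (p : Ω → ℝ), (∀ ω, 0 ≤ p ω) →
      (open Classical in (univ.filter (fun ω => 0 < p ω)).card) ≤ n →
      ∃ p' : Ω → ℝ, (∀ ω, 0 ≤ p' ω) ∧ (∀ ω, 0 < p' ω → 0 < p ω) ∧
        (∑ ω, p' ω = ∑ ω, p ω) ∧
        (∀ x, law p' g x = law p g x) ∧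
        (∀ ω ω', 0 < p' ω → 0 < p' ω' → g ω = g ω' → ω = ω') ∧
        ∑ i ∈ s, c i * H p' (X i) ≤ ∑ i ∈ s, c i * H p (X i) := by
  classical
  intro n
  induction n with
  | zero =>
    intro p hp hn
    have h0 : ∀ ω, ¬ 0 < p ω := by
      intro ω hω
      have : ω ∈ univ.filter (fun ω => 0 < p ω) := by simp [hω]
      rw [Finset.card_eq_zero.mp (Nat.le_zero.mp hn)] at this
      simp at this
    exact ⟨p, hp, fun ω h => h, rfl, fun _ => rfl, fun ω _ h => absurd h (h0 ω), le_rfl⟩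
  | succ n ih =>
    intro p hp hn
    by_cases hinj : ∀ ω ω', 0 < p ω → 0 < p ω' → g ω = g ω' → ω = ω'
    · exact ⟨p, hp, fun ω h => h, rfl, fun _ => rfl, hinj, le_rfl⟩
    push Not at hinj
    obtain ⟨u, v, hu, hv, hguv, huv⟩ := hinj
    set a := p u with ha
    set b := p v with hb
    have hab : 0 < a + b := add_pos hu hv
    -- moving the mass of `y` onto `x`
    let mv : Ω → Ω → Ω → ℝ := fun x y ω => if ω = x then a + b else if ω = y then 0 else p ω
    have mv_nonneg : ∀ x y ω, 0 ≤ mv x y ω := by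
      intro x y ω
      simp only [mv]
      split_ifs
      · exact hab.le
      · exact le_rfl
      · exact hp ω
    have law_mv : ∀ x y, ((x = u ∧ y = v) ∨ (x = v ∧ y = u)) →
        ∀ z, law (mv x y) g z = law p g z := by
      intro x y hxy z
      have hne : x ≠ y := by
        rcases hxy with ⟨rfl, rfl⟩ | ⟨rfl, rfl⟩
        · exact huv
        · exact Ne.symm huv
      have hgxy : g x = g y := by
        rcases hxy with ⟨rfl, rfl⟩ | ⟨rfl, rfl⟩
        · exact hguv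
        · exact hguv.symm
      have hs : p x + p y = a + b := by
        rcases hxy with ⟨rfl, rfl⟩ | ⟨rfl, rfl⟩
        · rfl
        · rw [ha, hb]; ring
      unfold law
      rw [← Finset.add_sum_erase _ _ (Finset.mem_univ x),
        ← Finset.add_sum_erase _ _ (Finset.mem_erase.mpr ⟨Ne.symm hne, Finset.mem_univ y⟩),
        ← Finset.add_sum_erase (Finset.univ) (fun ω => if g ω = z then p ω else 0)
          (Finset.mem_univ x),
        ← Finset.add_sum_erase _ (fun ω => if g ω = z then p ω else 0)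
          (Finset.mem_erase.mpr ⟨Ne.symm hne, Finset.mem_univ y⟩)]
      have hrest : ∑ ω ∈ (Finset.univ.erase x).erase y, (if g ω = z then mv x y ω else 0)
          = ∑ ω ∈ (Finset.univ.erase x).erase y, (if g ω = z then p ω else 0) := by
        refine Finset.sum_congr rfl (fun ω hω => ?_)
        have h1 := Finset.mem_erase.mp hω
        have h2 := Finset.mem_erase.mp h1.2
        simp only [mv]
        rw [if_neg h2.1, if_neg h1.1]
      rw [hrest]
      have e1 : mv x y x = a + b := by simp [mv]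
      have e2 : mv x y y = 0 := by simp [mv, Ne.symm hne]
      rw [e1, e2, hgxy]
      split_ifs
      · rw [← hs]; ring
      · ring
    have card_mv : ∀ x y, ((x = u ∧ y = v) ∨ (x = v ∧ y = u)) →
        (univ.filter (fun ω => 0 < mv x y ω)).card ≤ n := by
      intro x y hxy
      have hne : x ≠ y := by
        rcases hxy with ⟨rfl, rfl⟩ | ⟨rfl, rfl⟩
        · exact huv
        · exact Ne.symm huv
      have hpx : 0 < p x := by
        rcases hxy with ⟨rfl, rfl⟩ | ⟨rfl, rfl⟩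
        · exact hu
        · exact hv
      have hpy : 0 < p y := by
        rcases hxy with ⟨rfl, rfl⟩ | ⟨rfl, rfl⟩
        · exact hv
        · exact hu
      have hsub : univ.filter (fun ω => 0 < mv x y ω) ⊆
          (univ.filter (fun ω => 0 < p ω)).erase y := by
        intro ω hω
        have hω' : 0 < mv x y ω := (Finset.mem_filter.mp hω).2
        rw [Finset.mem_erase, Finset.mem_filter]
        simp only [mv] at hω'
        by_cases h1 : ω = x
        · subst h1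
          exact ⟨hne, Finset.mem_univ _, hpx⟩
        · rw [if_neg h1] at hω'
          by_cases h2 : ω = y
          · rw [if_pos h2] at hω'; exact absurd hω' (lt_irrefl _)
          · rw [if_neg h2] at hω'
            exact ⟨h2, Finset.mem_univ _, hω'⟩
      have h3 := Finset.card_le_card hsub
      rw [Finset.card_erase_of_mem (by simp [hpy])] at h3
      omega
    have supp_mv : ∀ x y, ((x = u ∧ y = v) ∨ (x = v ∧ y = u)) →
        ∀ ω, 0 < mv x y ω → 0 < p ω := by
      intro x y hxy ω hω'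
      have hpx : 0 < p x := by
        rcases hxy with ⟨rfl, rfl⟩ | ⟨rfl, rfl⟩
        · exact hu
        · exact hv
      simp only [mv] at hω'
      by_cases h1 : ω = x
      · subst h1; exact hpx
      · rw [if_neg h1] at hω'
        by_cases h2 : ω = y
        · rw [if_pos h2] at hω'; exact absurd hω' (lt_irrefl _)
        · rw [if_neg h2] at hω'; exact hω'
    have hpeq : p = fun ω => a / (a + b) * mv u v ω + b / (a + b) * mv v u ω := by
      funext ω
      simp only [mv]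
      by_cases h1 : ω = u
      · subst h1
        rw [if_pos rfl, if_neg huv, if_pos rfl]
        field_simp
        rw [← ha]; ring
      · by_cases h2 : ω = v
        · subst h2
          rw [if_neg (Ne.symm huv), if_pos rfl, if_pos rfl]
          field_simp
          rw [← hb]; ring
        · rw [if_neg h1, if_neg h2, if_neg h2, if_neg h1]
          field_simp
    have hconc : a / (a + b) * ∑ i ∈ s, c i * H (mv u v) (X i)
        + b / (a + b) * ∑ i ∈ s, c i * H (mv v u) (X i) ≤ ∑ i ∈ s, c i * H p (X i) := by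
      rw [Finset.mul_sum, Finset.mul_sum, ← Finset.sum_add_distrib]
      refine Finset.sum_le_sum (fun i hi => ?_)
      have h4 := H_concave (mv_nonneg u v) (mv_nonneg v u) (a := a / (a + b)) (b := b / (a + b))
        (by positivity) (by positivity) (by field_simp) (X i)
      rw [← hpeq] at h4
      have := mul_le_mul_of_nonneg_left h4 (hc i hi)
      nlinarith [this]
    have hsum : ∀ x y, ((x = u ∧ y = v) ∨ (x = v ∧ y = u)) → ∑ ω, mv x y ω = ∑ ω, p ω := by
      intro x y hxy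
      rw [← sum_law (mv x y) g, ← sum_law p g]
      exact Finset.sum_congr rfl (fun z _ => law_mv x y hxy z)
    have hmin : (∑ i ∈ s, c i * H (mv u v) (X i) ≤ ∑ i ∈ s, c i * H p (X i)) ∨
        (∑ i ∈ s, c i * H (mv v u) (X i) ≤ ∑ i ∈ s, c i * H p (X i)) := by
      by_contra hcon
      push Not at hcon
      obtain ⟨h5, h6⟩ := hcon
      have w1 : 0 < a / (a + b) := div_pos hu hab
      have w2 : 0 < b / (a + b) := div_pos hv hab
      have w3 : a / (a + b) + b / (a + b) = 1 := by field_simp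
      have := mul_lt_mul_of_pos_left h5 w1
      have := mul_lt_mul_of_pos_left h6 w2
      have : (∑ i ∈ s, c i * H p (X i)) =
        a / (a + b) * (∑ i ∈ s, c i * H p (X i)) + b / (a + b) * (∑ i ∈ s, c i * H p (X i)) := by
        rw [← add_mul, w3, one_mul]
      linarith
    have fin : ∀ x y, ((x = u ∧ y = v) ∨ (x = v ∧ y = u)) →
        (∑ i ∈ s, c i * H (mv x y) (X i) ≤ ∑ i ∈ s, c i * H p (X i)) →
        ∃ p' : Ω → ℝ, (∀ ω, 0 ≤ p' ω) ∧ (∀ ω, 0 < p' ω → 0 < p ω) ∧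
        (∑ ω, p' ω = ∑ ω, p ω) ∧
        (∀ x, law p' g x = law p g x) ∧
        (∀ ω ω', 0 < p' ω → 0 < p' ω' → g ω = g ω' → ω = ω') ∧
        ∑ i ∈ s, c i * H p' (X i) ≤ ∑ i ∈ s, c i * H p (X i) := by
      intro x y hxy hle
      obtain ⟨p', q1, q2, q3, q4, q5, q6⟩ := ih (mv x y) (mv_nonneg x y) (card_mv x y hxy)
      exact ⟨p', q1, fun ω h => supp_mv x y hxy ω (q2 ω h), q3.trans (hsum x y hxy),
        fun z => (q4 z).trans (law_mv x y hxy z), q5, q6.trans hle⟩
    rcases hmin with h | h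
    · exact fin u v (Or.inl ⟨rfl, rfl⟩) h
    · exact fin v u (Or.inr ⟨rfl, rfl⟩) h

/-! ### Gluing (conditionally independent couplings) -/

section Glue

variable {Ω₁ Ω₂ : Type*} [Fintype Ω₁] [Fintype Ω₂]

open Classical in
/-- the coupling of `(Ω₁, p₁)` and `(Ω₂, p₂)` over `Z₁ = Z₂`, conditionally independent given
the common value -/
noncomputable def glue (p₁ : Ω₁ → ℝ) (p₂ : Ω₂ → ℝ) (Z₁ : Ω₁ → T) (Z₂ : Ω₂ → T)
    (w : Ω₁ × Ω₂) : ℝ :=
  if Z₁ w.1 = Z₂ w.2 then p₁ w.1 * p₂ w.2 / law p₁ Z₁ (Z₁ w.1) else 0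

variable {p₁ : Ω₁ → ℝ} {p₂ : Ω₂ → ℝ} {Z₁ : Ω₁ → T} {Z₂ : Ω₂ → T}

omit [Fintype Ω₂] in
theorem glue_nonneg (h₁ : ∀ ω, 0 ≤ p₁ ω) (h₂ : ∀ ω, 0 ≤ p₂ ω) (w : Ω₁ × Ω₂) :
    0 ≤ glue p₁ p₂ Z₁ Z₂ w := by
  unfold glue
  split_ifs
  · exact div_nonneg (mul_nonneg (h₁ _) (h₂ _)) (law_nonneg h₁ _ _)
  · exact le_rfl

omit [Fintype Ω₂] in
theorem glue_pos_iff (h₁ : ∀ ω, 0 ≤ p₁ ω) (h₂ : ∀ ω, 0 ≤ p₂ ω) (w : Ω₁ × Ω₂) :
    0 < glue p₁ p₂ Z₁ Z₂ w ↔ 0 < p₁ w.1 ∧ 0 < p₂ w.2 ∧ Z₁ w.1 = Z₂ w.2 := by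
  unfold glue
  constructor
  · intro h
    split_ifs at h with hz
    · refine ⟨?_, ?_, hz⟩
      · by_contra h0
        rw [le_antisymm (not_lt.mp h0) (h₁ _)] at h; simp at h
      · by_contra h0
        rw [le_antisymm (not_lt.mp h0) (h₂ _)] at h; simp at h
    · exact absurd h (lt_irrefl _)
  · rintro ⟨a, b, c⟩
    rw [if_pos c]
    exact div_pos (mul_pos a b) (law_pos h₁ Z₁ a)

/-- first marginal -/
theorem glue_fst (h₁ : ∀ ω, 0 ≤ p₁ ω) (hZ : ∀ z, law p₁ Z₁ z = law p₂ Z₂ z) (ω₁ : Ω₁) :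
    ∑ ω₂, glue p₁ p₂ Z₁ Z₂ (ω₁, ω₂) = p₁ ω₁ := by
  classical
  have : ∑ ω₂, glue p₁ p₂ Z₁ Z₂ (ω₁, ω₂) = p₁ ω₁ * law p₂ Z₂ (Z₁ ω₁) / law p₁ Z₁ (Z₁ ω₁) := by
    unfold glue law
    rw [Finset.mul_sum, Finset.sum_div]
    refine Finset.sum_congr rfl (fun ω₂ _ => ?_)
    dsimp only
    by_cases h : Z₁ ω₁ = Z₂ ω₂
    · rw [if_pos h, if_pos h.symm]
    · rw [if_neg h, if_neg (Ne.symm h)]; simp
  rw [this, ← hZ]
  by_cases h0 : p₁ ω₁ = 0
  · simp [h0]
  · have := law_pos h₁ Z₁ (lt_of_le_of_ne (h₁ ω₁) (Ne.symm h0))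
    rw [mul_div_assoc, div_self this.ne', mul_one]

/-- second marginal -/
theorem glue_snd (h₂ : ∀ ω, 0 ≤ p₂ ω) (hZ : ∀ z, law p₁ Z₁ z = law p₂ Z₂ z) (ω₂ : Ω₂) :
    ∑ ω₁, glue p₁ p₂ Z₁ Z₂ (ω₁, ω₂) = p₂ ω₂ := by
  classical
  have : ∑ ω₁, glue p₁ p₂ Z₁ Z₂ (ω₁, ω₂) = law p₁ Z₁ (Z₂ ω₂) * p₂ ω₂ / law p₁ Z₁ (Z₂ ω₂) := by
    unfold glue
    rw [show law p₁ Z₁ (Z₂ ω₂) * p₂ ω₂ = ∑ ω, (if Z₁ ω = Z₂ ω₂ then p₁ ω else 0) * p₂ ω₂ by
      rw [← Finset.sum_mul]; unfold law; congr 1,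
      Finset.sum_div]
    refine Finset.sum_congr rfl (fun ω₁ _ => ?_)
    dsimp only
    by_cases h : Z₁ ω₁ = Z₂ ω₂
    · rw [if_pos h, if_pos h, h]
    · rw [if_neg h, if_neg h]; simp
  rw [this]
  by_cases h0 : p₂ ω₂ = 0
  · simp [h0]
  · have := law_pos h₂ Z₂ (lt_of_le_of_ne (h₂ ω₂) (Ne.symm h0))
    rw [← hZ] at this
    rw [mul_div_right_comm, div_self this.ne', one_mul]

theorem sum_glue (h₁ : ∀ ω, 0 ≤ p₁ ω) (hZ : ∀ z, law p₁ Z₁ z = law p₂ Z₂ z) :
    ∑ w, glue p₁ p₂ Z₁ Z₂ w = ∑ ω, p₁ ω := by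
  rw [Fintype.sum_prod_type]
  exact Finset.sum_congr rfl (fun ω _ => glue_fst h₁ hZ ω)

theorem law_glue_fst (h₁ : ∀ ω, 0 ≤ p₁ ω) (hZ : ∀ z, law p₁ Z₁ z = law p₂ Z₂ z)
    (X : Ω₁ → S) (x : S) : law (glue p₁ p₂ Z₁ Z₂) (fun w => X w.1) x = law p₁ X x := by
  classical
  unfold law
  rw [Fintype.sum_prod_type]
  refine Finset.sum_congr rfl (fun ω _ => ?_)
  dsimp only
  by_cases h : X ω = x
  · simp only [h, if_true]
    exact glue_fst h₁ hZ ω
  · simp [h]

theorem law_glue_snd (h₂ : ∀ ω, 0 ≤ p₂ ω) (hZ : ∀ z, law p₁ Z₁ z = law p₂ Z₂ z)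
    (X : Ω₂ → S) (x : S) : law (glue p₁ p₂ Z₁ Z₂) (fun w => X w.2) x = law p₂ X x := by
  classical
  unfold law
  rw [Fintype.sum_prod_type, Finset.sum_comm]
  refine Finset.sum_congr rfl (fun ω _ => ?_)
  dsimp only
  by_cases h : X ω = x
  · simp only [h, if_true]
    exact glue_snd h₂ hZ ω
  · simp [h]

theorem H_eq_of_marginal {Ω' : Type*} [Fintype Ω'] {q : Ω' → ℝ} {p : Ω → ℝ} (pr : Ω' → Ω)
    (hq : ∀ ω, (open Classical in ∑ ω', if pr ω' = ω then q ω' else 0) = p ω) (X : Ω → S) :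
    H q (fun ω' => X (pr ω')) = H p X := by
  classical
  have hlaw : ∀ x, law q (fun ω' => X (pr ω')) x = law p X x := by
    intro x
    unfold law
    simp_rw [← hq]
    have : ∀ ω, (if X ω = x then ∑ ω', (if pr ω' = ω then q ω' else 0) else 0)
        = ∑ ω', (if pr ω' = ω then (if X ω = x then q ω' else 0) else 0) := by
      intro ω
      by_cases h : X ω = x <;> simp [h]
    rw [Finset.sum_congr rfl (fun ω _ => this ω), Finset.sum_comm]
    refine Finset.sum_congr rfl (fun ω' _ => ?_)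
    rw [Finset.sum_ite_eq (Finset.univ) (pr ω')]
    simp
  unfold H
  congr 1
  simp_rw [hlaw, ← hq, Finset.sum_mul]
  rw [Finset.sum_comm]
  refine Finset.sum_congr rfl (fun ω' _ => ?_)
  rw [Finset.sum_eq_single (pr ω')]
  · simp
  · intro b _ hb
    rw [if_neg (Ne.symm hb)]; simp
  · intro h; exact absurd (Finset.mem_univ _) h

theorem H_glue_fst (h₁ : ∀ ω, 0 ≤ p₁ ω) (hZ : ∀ z, law p₁ Z₁ z = law p₂ Z₂ z)
    (X : Ω₁ → S) : H (glue p₁ p₂ Z₁ Z₂) (fun w => X w.1) = H p₁ X := by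
  classical
  refine H_eq_of_marginal Prod.fst (fun ω => ?_) X
  rw [Fintype.sum_prod_type, Finset.sum_eq_single ω]
  · simpa using glue_fst h₁ hZ ω
  · intro b _ hb; simp [hb]
  · intro h; exact absurd (Finset.mem_univ _) h

theorem H_glue_snd (h₂ : ∀ ω, 0 ≤ p₂ ω) (hZ : ∀ z, law p₁ Z₁ z = law p₂ Z₂ z)
    (X : Ω₂ → S) : H (glue p₁ p₂ Z₁ Z₂) (fun w => X w.2) = H p₂ X := by
  classical
  refine H_eq_of_marginal Prod.snd (fun ω => ?_) X
  rw [Fintype.sum_prod_type, Finset.sum_comm, Finset.sum_eq_single ω]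
  · simpa using glue_snd h₂ hZ ω
  · intro b _ hb; simp [hb]
  · intro h; exact absurd (Finset.mem_univ _) h

/-- Conditional independence: if `X` determines `Z₁` and `Y` determines `Z₂` then
`H(X, Y) = H(X) + H(Y) - H(Z)` in the glued law. -/
theorem H_glue_pair (h₁ : ∀ ω, 0 ≤ p₁ ω) (h₂ : ∀ ω, 0 ≤ p₂ ω)
    (hZ : ∀ z, law p₁ Z₁ z = law p₂ Z₂ z)
    {X : Ω₁ → S} {Y : Ω₂ → U} (hX : Det p₁ X Z₁) (hY : Det p₂ Y Z₂) :
    H (glue p₁ p₂ Z₁ Z₂) (fun w => (X w.1, Y w.2)) = H p₁ X + H p₂ Y - H p₁ Z₁ := by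
  classical
  have hlaw : ∀ w, 0 < glue p₁ p₂ Z₁ Z₂ w →
      law (glue p₁ p₂ Z₁ Z₂) (fun w => (X w.1, Y w.2)) (X w.1, Y w.2)
        = law p₁ X (X w.1) * law p₂ Y (Y w.2) / law p₁ Z₁ (Z₁ w.1) := by
    intro w hw
    obtain ⟨hw1, hw2, hw3⟩ := (glue_pos_iff h₁ h₂ w).mp hw
    have : law p₁ X (X w.1) * law p₂ Y (Y w.2) = ∑ ω1, ∑ ω2,
        (if X ω1 = X w.1 then p₁ ω1 else 0) * (if Y ω2 = Y w.2 then p₂ ω2 else 0) := by
      unfold law
      rw [Finset.sum_mul_sum]
    rw [this, Finset.sum_div]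
    unfold law
    rw [Fintype.sum_prod_type]
    refine Finset.sum_congr rfl (fun ω1 _ => ?_)
    rw [Finset.sum_div]
    refine Finset.sum_congr rfl (fun ω2 _ => ?_)
    simp only [Prod.mk.injEq]
    by_cases hx : X ω1 = X w.1
    · by_cases hy : Y ω2 = Y w.2
      · rw [if_pos ⟨hx, hy⟩, if_pos hx, if_pos hy]
        by_cases h01 : p₁ ω1 = 0
        · simp [glue, h01]
        by_cases h02 : p₂ ω2 = 0
        · simp [glue, h02]
        have e1 := hX _ _ (lt_of_le_of_ne (h₁ ω1) (Ne.symm h01)) hw1 hx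
        have e2 := hY _ _ (lt_of_le_of_ne (h₂ ω2) (Ne.symm h02)) hw2 hy
        unfold glue
        rw [if_pos (by rw [e1, e2, hw3])]
        simp only [e1]
        rfl
      · rw [if_neg (fun h => hy h.2), if_neg hy]; simp
    · rw [if_neg (fun h => hx h.1), if_neg hx]; simp
  have hterm : ∀ w, glue p₁ p₂ Z₁ Z₂ w *
      Real.log (law (glue p₁ p₂ Z₁ Z₂) (fun w => (X w.1, Y w.2)) (X w.1, Y w.2))
      = glue p₁ p₂ Z₁ Z₂ w * Real.log (law p₁ X (X w.1))
        + glue p₁ p₂ Z₁ Z₂ w * Real.log (law p₂ Y (Y w.2))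
        - glue p₁ p₂ Z₁ Z₂ w * Real.log (law p₁ Z₁ (Z₁ w.1)) := by
    intro w
    by_cases h0 : glue p₁ p₂ Z₁ Z₂ w = 0
    · simp [h0]
    have hw : 0 < glue p₁ p₂ Z₁ Z₂ w := lt_of_le_of_ne (glue_nonneg h₁ h₂ w) (Ne.symm h0)
    obtain ⟨hw1, hw2, hw3⟩ := (glue_pos_iff h₁ h₂ w).mp hw
    have a1 := law_pos h₁ X hw1
    have a2 := law_pos h₂ Y hw2
    have a3 := law_pos h₁ Z₁ hw1
    rw [hlaw w hw, Real.log_div (mul_pos a1 a2).ne' a3.ne', Real.log_mul a1.ne' a2.ne']
    ring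
  have hX' : H (glue p₁ p₂ Z₁ Z₂) (fun w => X w.1) = H p₁ X := H_glue_fst h₁ hZ X
  have hY' : H (glue p₁ p₂ Z₁ Z₂) (fun w => Y w.2) = H p₂ Y := H_glue_snd h₂ hZ Y
  have hZ' : H (glue p₁ p₂ Z₁ Z₂) (fun w => Z₁ w.1) = H p₁ Z₁ := H_glue_fst h₁ hZ Z₁
  rw [← hX', ← hY', ← hZ']
  unfold H
  rw [Finset.sum_congr rfl (fun w _ => hterm w)]
  simp only [Finset.sum_add_distrib, Finset.sum_sub_distrib]
  have f1 : ∀ w : Ω₁ × Ω₂, law (glue p₁ p₂ Z₁ Z₂) (fun w => X w.1) (X w.1) = law p₁ X (X w.1) :=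
    fun w => law_glue_fst h₁ hZ X _
  have f2 : ∀ w : Ω₁ × Ω₂, law (glue p₁ p₂ Z₁ Z₂) (fun w => Y w.2) (Y w.2) = law p₂ Y (Y w.2) :=
    fun w => law_glue_snd h₂ hZ Y _
  have f3 : ∀ w : Ω₁ × Ω₂, law (glue p₁ p₂ Z₁ Z₂) (fun w => Z₁ w.1) (Z₁ w.1)
      = law p₁ Z₁ (Z₁ w.1) := fun w => law_glue_fst h₁ hZ Z₁ _
  simp_rw [f1, f2, f3]
  ring

end Glue

end Pool.Agent.H49.Ent
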