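import Mathlib
import Pool.Agent.H49.Ent

/-!
Weighted slope inequalities (`AKW`), their conditional form, the reduction to an injective
direction and the passage to finite sets.
-/

namespace Pool.Agent.H49.Ent

open Finset Real
open scoped BigOperators

/-- The slope inequality with times `T` and weights `w`: for all finite laws and all
`f, g : Ω → ℚ`, `H(g) ≤ ∑ t ∈ T, w t * H(f + t g)`. -/
def AKW (T : Finset ℚ) (w : ℚ → ℝ) : Prop :=
  ∀ (Ω : Type) [Fintype Ω] (p : Ω → ℝ) (f g : Ω → ℚ), (∀ ω, 0 ≤ p ω) → ∑ ω, p ω = 1 →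
    H p g ≤ ∑ t ∈ T, w t * H p (fun ω => f ω + t * g ω)

/-- exponent `α` is attained by a finite set of times with nonnegative weights -/
def Good (α : ℝ) : Prop :=
  ∃ (T : Finset ℚ) (w : ℚ → ℝ), (∀ t ∈ T, 0 ≤ w t) ∧ ∑ t ∈ T, w t = α ∧ AKW T w

section

variable {Ω : Type} [Fintype Ω]

theorem H_zero {S : Type*} (X : Ω → S) : H (fun _ : Ω => (0 : ℝ)) X = 0 := by
  unfold H; simp

/-- Conditional form of the slope inequality. -/
theorem AKW.cond {T : Finset ℚ} {w : ℚ → ℝ} (h : AKW T w) {p : Ω → ℝ} (hp : ∀ ω, 0 ≤ p ω)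
    (f g : Ω → ℚ) {U : Type*} (Z : Ω → U) :
    CH p g Z ≤ ∑ t ∈ T, w t * CH p (fun ω => f ω + t * g ω) Z := by
  classical
  rw [CH_eq_sum hp]
  simp_rw [CH_eq_sum hp, Finset.mul_sum]
  rw [Finset.sum_comm]
  refine Finset.sum_le_sum (fun z _ => ?_)
  by_cases hz : law p Z z = 0
  · simp [hz]
  · have hz' : 0 < law p Z z := lt_of_le_of_ne (law_nonneg hp Z z) (Ne.symm hz)
    have h1 := h Ω (Ent.cond p Z z) f g (cond_nonneg hp Z z) (sum_cond p Z hz)
    have h2 := mul_le_mul_of_nonneg_left h1 hz'.le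
    rw [Finset.mul_sum] at h2
    exact h2.trans_eq (Finset.sum_congr rfl (fun t _ => by ring))

/-- Conditional form, unfolded. -/
theorem AKW.cond' {T : Finset ℚ} {w : ℚ → ℝ} (h : AKW T w) {p : Ω → ℝ} (hp : ∀ ω, 0 ≤ p ω)
    (f g : Ω → ℚ) {U : Type*} (Z : Ω → U) :
    H p (fun ω => (g ω, Z ω)) - H p Z ≤
      ∑ t ∈ T, w t * (H p (fun ω => (f ω + t * g ω, Z ω)) - H p Z) :=
  h.cond hp f g Z

end

/-- It is enough to prove the slope inequality when `g` is injective on the support. -/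
theorem AKW_of_injective {T : Finset ℚ} {w : ℚ → ℝ} (hw : ∀ t ∈ T, 0 ≤ w t)
    (h : ∀ (Ω : Type) [Fintype Ω] (p : Ω → ℝ) (f g : Ω → ℚ), (∀ ω, 0 ≤ p ω) → ∑ ω, p ω = 1 →
      (∀ ω ω', 0 < p ω → 0 < p ω' → g ω = g ω' → ω = ω') →
      H p g ≤ ∑ t ∈ T, w t * H p (fun ω => f ω + t * g ω)) : AKW T w := by
  intro Ω _ p f g hp h1
  obtain ⟨p', q1, _, q3, q4, q5, q6⟩ :=
    exists_section T (fun t => fun ω => f ω + t * g ω) w hw g _ p hp le_rfl
  have h2 := h Ω p' f g q1 (q3.trans h1) q5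
  have h3 : H p' g = H p g := by
    rw [H_eq_sum_image, H_eq_sum_image]
    exact Finset.sum_congr rfl (fun s _ => by rw [q4 s])
  rw [← h3]
  exact h2.trans q6

/-- The trivial exponent `2`. -/
theorem good_two : Good 2 := by
  classical
  refine ⟨{0, 1}, fun _ => 1, fun _ _ => zero_le_one, by norm_num, ?_⟩
  intro Ω _ p f g hp h1
  rw [Finset.sum_pair (by norm_num)]
  simp only [one_mul, zero_mul, add_zero]
  refine subadd hp h1 (fun ω ω' _ _ h => ?_)
  simp only [Prod.mk.injEq] at h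
  linarith [h.1, h.2]

/-- A slope inequality of total weight `α` gives the exponent `α` for finite sets. -/
theorem card_le_of_AKW {T : Finset ℚ} {w : ℚ → ℝ} {α : ℝ} (hw : ∀ t ∈ T, 0 ≤ w t)
    (hα : ∑ t ∈ T, w t = α) (h : AKW T w) {A : Type} [Fintype A] [Nonempty A] (f g : A → ℚ)
    (N : ℝ) (hN : ∀ t ∈ T, ((univ.image (fun a => f a + t * g a)).card : ℝ) ≤ N) :
    ((univ.image g).card : ℝ) ≤ N ^ α := by
  obtain ⟨B, hB⟩ : ∃ B : Finset ℚ, B = univ.image g := ⟨_, rfl⟩
  rw [← hB]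
  -- a section of `g`
  have hsec : ∀ x : B, ∃ a, g a = x.1 := by
    rintro ⟨x, hx⟩
    rw [hB] at hx
    obtain ⟨a, _, ha⟩ := Finset.mem_image.mp hx
    exact ⟨a, ha⟩
  choose σ hσ using hsec
  have hBne : Nonempty B :=
    ⟨⟨g (Classical.arbitrary A), hB ▸ Finset.mem_image_of_mem g (Finset.mem_univ _)⟩⟩
  have hinj : Function.Injective (fun x => g (σ x)) := by
    intro x y hxy
    simp only [hσ] at hxy
    exact Subtype.ext hxy
  have hc : (0 : ℝ) < Fintype.card B := by
    exact_mod_cast Fintype.card_pos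
  have hsum : ∑ _x : B, (Fintype.card B : ℝ)⁻¹ = 1 := by
    rw [Finset.sum_const, Finset.card_univ, nsmul_eq_mul, mul_inv_cancel₀ hc.ne']
  have h1 := h B (fun _ => (Fintype.card B : ℝ)⁻¹)
    (fun x => f (σ x)) (fun x => g (σ x)) (fun _ => by positivity) hsum
  rw [H_uniform hinj] at h1
  have h2 : ∀ t ∈ T, w t * H (fun _ : B =>
      (Fintype.card B : ℝ)⁻¹) (fun x => f (σ x) + t * g (σ x))
      ≤ w t * Real.log N := by
    intro t ht
    refine mul_le_mul_of_nonneg_left ?_ (hw t ht)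
    refine (H_le_log_card (fun _ => by positivity) hsum
      _ (univ.image (fun a => f a + t * g a))
      (fun x _ => Finset.mem_image_of_mem (fun a => f a + t * g a) (Finset.mem_univ _))).trans ?_
    refine Real.log_le_log ?_ (hN t ht)
    have : 0 < (univ.image (fun a => f a + t * g a)).card :=
      Finset.card_pos.mpr ⟨_, Finset.mem_image_of_mem _ (Finset.mem_univ (Classical.arbitrary A))⟩
    exact_mod_cast this
  have h3 : Real.log (Fintype.card B) ≤ α * Real.log N := by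
    refine h1.trans ((Finset.sum_le_sum h2).trans_eq ?_)
    rw [← Finset.sum_mul, hα]
  have hcard : (Fintype.card B : ℝ) = B.card := by
    rw [Fintype.card_coe]
  rw [hcard] at h3 hc
  by_cases hT : T.Nonempty
  · obtain ⟨t, ht⟩ := hT
    have hN0 : 0 < N := by
      refine lt_of_lt_of_le ?_ (hN t ht)
      have : 0 < (univ.image (fun a => f a + t * g a)).card :=
        Finset.card_pos.mpr ⟨_, Finset.mem_image_of_mem _ (Finset.mem_univ (Classical.arbitrary A))⟩
      exact_mod_cast this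
    rw [← Real.log_rpow hN0] at h3
    exact (Real.log_le_log_iff hc (Real.rpow_pos_of_pos hN0 _)).mp h3
  · rw [Finset.not_nonempty_iff_eq_empty] at hT
    subst hT
    simp only [Finset.sum_empty] at hα
    subst hα
    simp only [zero_mul] at h3
    rw [Real.rpow_zero]
    exact (Real.log_nonpos_iff hc.le).mp h3

/-- a finite set of nonzero vectors is avoided by the kernel of a functional `x + M y` -/
theorem exists_generic (F : Finset (ℚ × ℚ)) :
    ∃ M : ℚ, ∀ v ∈ F, v.1 + M * v.2 = 0 → v = 0 := by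
  classical
  obtain ⟨M, hM⟩ := Infinite.exists_notMem_finset (F.image (fun v => -v.1 / v.2))
  refine ⟨M, fun v hv h => ?_⟩
  by_cases h2 : v.2 = 0
  · rw [h2, mul_zero, add_zero] at h
    exact Prod.ext h h2
  · exfalso
    apply hM
    refine Finset.mem_image.mpr ⟨v, hv, ?_⟩
    field_simp
    linarith

end Pool.Agent.H49.Ent
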