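import Mathlib
import Pool.Agent.H49.EntAK

/-!
Relative families of lines, the two- and three-line configurations, and the basic
inequalities between their entropies.
-/

namespace Pool.Agent.H49.Ent

open Finset Real
open scoped BigOperators

/-! ### Shifting the times -/

theorem AKW.shift {T : Finset ℚ} {w : ℚ → ℝ} (h : AKW T w) (b : ℚ) :
    AKW (T.image (fun t => t + b)) (fun t => w (t - b)) := by
  intro Ω _ p f g hp h1
  have h2 := h Ω p (fun ω => f ω + b * g ω) g hp h1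
  rw [Finset.sum_image (fun x _ y _ hxy => by linarith)]
  refine h2.trans_eq (Finset.sum_congr rfl (fun t _ => ?_))
  dsimp only
  rw [add_sub_cancel_right]
  congr 2
  funext ω
  ring

/-- The times of a good inequality may be chosen outside any finite set. -/
theorem Good.avoid {a : ℝ} (h : Good a) (bad : Finset ℚ) :
    ∃ (T : Finset ℚ) (w : ℚ → ℝ), (∀ t ∈ T, 0 ≤ w t) ∧ (∀ t ∈ T, t ∉ bad) ∧
      ∑ t ∈ T, w t = a ∧ AKW T w := by
  classical
  obtain ⟨T, w, h1, h2, h3⟩ := h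
  obtain ⟨b, hb⟩ := Infinite.exists_notMem_finset
    ((bad ×ˢ T).image (fun x => x.1 - x.2))
  refine ⟨T.image (fun t => t + b), fun t => w (t - b), ?_, ?_, ?_, h3.shift b⟩
  · intro t ht
    obtain ⟨s, hs, rfl⟩ := Finset.mem_image.mp ht
    dsimp only
    rw [add_sub_cancel_right]
    exact h1 s hs
  · intro t ht hbad
    obtain ⟨s, hs, rfl⟩ := Finset.mem_image.mp ht
    apply hb
    refine Finset.mem_image.mpr ⟨(s + b, s), Finset.mem_product.mpr ⟨hbad, hs⟩, ?_⟩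
    simp
  · rw [Finset.sum_image (fun x _ y _ hxy => by linarith), ← h2]
    exact Finset.sum_congr rfl (fun t _ => by rw [add_sub_cancel_right])

/-! ### Relative families -/

/-- A relative family of lines: a finite law, a context `Z` and a line `(f, g)` such that the
direction `g` and the context determine the line. -/
structure Fam where
  /-- the sample space -/
  Ω : Type
  [fin : Fintype Ω]
  /-- values of the context -/
  ζ : Type
  /-- the law -/
  p : Ω → ℝ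
  hp : ∀ ω, 0 ≤ p ω
  h1 : ∑ ω, p ω = 1
  /-- the context -/
  Z : Ω → ζ
  /-- the point of the line at time `0` -/
  f : Ω → ℚ
  /-- the direction of the line -/
  g : Ω → ℚ
  det : Det p (fun ω => (g ω, Z ω)) f

attribute [instance] Fam.fin

namespace Fam

variable (F : Fam)

/-- the point of the line at time `t` -/
def pt (t : ℚ) (ω : F.Ω) : ℚ := F.f ω + t * F.g ω

/-- entropy of the context -/
noncomputable def zH : ℝ := H F.p F.Z

/-- entropy of the line given the context -/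
noncomputable def L : ℝ := H F.p (fun ω => (F.g ω, F.Z ω)) - F.zH

/-- entropy of the point at time `t` given the context -/
noncomputable def S (t : ℚ) : ℝ := H F.p (fun ω => (F.pt t ω, F.Z ω)) - F.zH

/-- two lines of the family through a common point at time `t` -/
noncomputable def two (t : ℚ) : F.Ω × F.Ω → ℝ :=
  glue F.p F.p (fun ω => (F.pt t ω, F.Z ω)) (fun ω => (F.pt t ω, F.Z ω))

/-- the point functional `pt s (w₀) + c g(w₁)` -/
def X (s c : ℚ) (w : F.Ω × F.Ω) : ℚ := F.pt s w.1 + c * F.g w.2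

/-- entropy of `X` given the context -/
noncomputable def x (t s c : ℚ) : ℝ := H (F.two t) (fun w => (F.X s c w, F.Z w.1)) - F.zH

/-- entropy of a pair of points on two lines crossing at time `t`, given the context -/
noncomputable def m (t s r : ℚ) : ℝ :=
  H (F.two t) (fun w => (F.pt s w.1, F.pt r w.2, F.Z w.1)) - F.zH

/-- three lines: `w₀` crosses `w₁` at time `tp` and `w₂` at time `tq`;
`w = ((w₀, w₁), w₂)` -/
noncomputable def three (tp tq : ℚ) : (F.Ω × F.Ω) × F.Ω → ℝ :=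
  glue (F.two tp) F.p (fun w => (F.pt tq w.1, F.Z w.1)) (fun ω => (F.pt tq ω, F.Z ω))

theorem two_nonneg (t : ℚ) (w : F.Ω × F.Ω) : 0 ≤ F.two t w := glue_nonneg F.hp F.hp w

theorem two_pos {t : ℚ} {w : F.Ω × F.Ω} (h : 0 < F.two t w) :
    0 < F.p w.1 ∧ 0 < F.p w.2 ∧ F.f w.1 + t * F.g w.1 = F.f w.2 + t * F.g w.2 ∧
      F.Z w.1 = F.Z w.2 := by
  obtain ⟨h1, h2, h3⟩ := (glue_pos_iff F.hp F.hp w).mp h
  simp only [Prod.mk.injEq, pt] at h3
  exact ⟨h1, h2, h3.1, h3.2⟩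

theorem sum_two (t : ℚ) : ∑ w, F.two t w = 1 := (sum_glue F.hp (fun _ => rfl)).trans F.h1

theorem det_line {ω ω' : F.Ω} (h : 0 < F.p ω) (h' : 0 < F.p ω') (hg : F.g ω = F.g ω')
    (hZ : F.Z ω = F.Z ω') : F.f ω = F.f ω' :=
  F.det ω ω' h h' (by simp [hg, hZ])

theorem law_two_fst (t : ℚ) {U : Type*} (V : F.Ω → U) (v : U) :
    law (F.two t) (fun w => V w.1) v = law F.p V v := law_glue_fst F.hp (fun _ => rfl) V v

theorem law_two_snd (t : ℚ) {U : Type*} (V : F.Ω → U) (v : U) :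
    law (F.two t) (fun w => V w.2) v = law F.p V v := law_glue_snd F.hp (fun _ => rfl) V v

theorem H_two_fst (t : ℚ) {U : Type*} (V : F.Ω → U) :
    H (F.two t) (fun w => V w.1) = H F.p V := H_glue_fst F.hp (fun _ => rfl) V

theorem H_two_snd (t : ℚ) {U : Type*} (V : F.Ω → U) :
    H (F.two t) (fun w => V w.2) = H F.p V := H_glue_snd F.hp (fun _ => rfl) V

theorem H_two_Z (t : ℚ) : H (F.two t) (fun w => F.Z w.1) = F.zH := F.H_two_fst t F.Z

/-- entropy of the pair of lines -/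
theorem H_two_lines (t : ℚ) :
    H (F.two t) (fun w => (F.g w.1, F.g w.2, F.Z w.1)) = 2 * F.L - F.S t + F.zH := by
  have h := H_glue_pair (p₁ := F.p) (p₂ := F.p) (Z₁ := fun ω => (F.pt t ω, F.Z ω))
    (Z₂ := fun ω => (F.pt t ω, F.Z ω)) F.hp F.hp (fun _ => rfl)
    (X := fun ω => (F.g ω, F.Z ω)) (Y := fun ω => (F.g ω, F.Z ω)) ?_ ?_
  · have e : H (F.two t) (fun w => (F.g w.1, F.g w.2, F.Z w.1)) =
        H (F.two t) (fun w => ((F.g w.1, F.Z w.1), (F.g w.2, F.Z w.2))) := by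
      refine H_congr (F.two_nonneg t) ?_ ?_
      · intro w w' _ _ h
        simp only [Prod.mk.injEq] at h ⊢
        exact ⟨h.1.1, h.2.1, h.1.2⟩
      · intro w w' hw hw' h
        simp only [Prod.mk.injEq] at h ⊢
        have h3 := (F.two_pos hw).2.2.2
        have h4 := (F.two_pos hw').2.2.2
        exact ⟨⟨h.1, h.2.2⟩, h.2.1, by rw [← h3, ← h4, h.2.2]⟩
    rw [e]
    unfold two
    rw [h]
    unfold L S
    ring
  all_goals
    intro ω ω' hω hω' h
    simp only [Prod.mk.injEq, pt] at h ⊢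
    exact ⟨by rw [F.det_line hω hω' h.1 h.2, h.1], h.2⟩

theorem three_nonneg (tp tq : ℚ) (w : (F.Ω × F.Ω) × F.Ω) : 0 ≤ F.three tp tq w :=
  glue_nonneg (F.two_nonneg tp) F.hp w

theorem three_pos {tp tq : ℚ} {w : (F.Ω × F.Ω) × F.Ω} (h : 0 < F.three tp tq w) :
    0 < F.p w.1.1 ∧ 0 < F.p w.1.2 ∧ 0 < F.p w.2 ∧
      F.f w.1.1 + tp * F.g w.1.1 = F.f w.1.2 + tp * F.g w.1.2 ∧
      F.f w.1.1 + tq * F.g w.1.1 = F.f w.2 + tq * F.g w.2 ∧
      F.Z w.1.1 = F.Z w.1.2 ∧ F.Z w.1.1 = F.Z w.2 := by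
  obtain ⟨h1, h2, h3⟩ := (glue_pos_iff (F.two_nonneg tp) F.hp w).mp h
  obtain ⟨h4, h5, h6, h7⟩ := F.two_pos h1
  simp only [Prod.mk.injEq, pt] at h3
  exact ⟨h4, h5, h2, h6, h3.1, h7, h3.2⟩

theorem law_eq_three (tp tq : ℚ) (z : ℚ × F.ζ) :
    law (F.two tp) (fun w => (F.pt tq w.1, F.Z w.1)) z = law F.p (fun ω => (F.pt tq ω, F.Z ω)) z :=
  F.law_two_fst tp (fun ω => (F.pt tq ω, F.Z ω)) z

theorem sum_three (tp tq : ℚ) : ∑ w, F.three tp tq w = 1 :=
  (sum_glue (F.two_nonneg tp) (F.law_eq_three tp tq)).trans (F.sum_two tp)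

theorem H_three_fst (tp tq : ℚ) {U : Type*} (V : F.Ω × F.Ω → U) :
    H (F.three tp tq) (fun w => V w.1) = H (F.two tp) V :=
  H_glue_fst (F.two_nonneg tp) (F.law_eq_three tp tq) V

theorem H_three_snd (tp tq : ℚ) {U : Type*} (V : F.Ω → U) :
    H (F.three tp tq) (fun w => V w.2) = H F.p V :=
  H_glue_snd F.hp (F.law_eq_three tp tq) V

/-- entropy of the three lines -/
theorem H_three_lines (tp tq : ℚ) :
    H (F.three tp tq) (fun w => (F.g w.1.1, F.g w.1.2, F.g w.2, F.Z w.1.1)) =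
      3 * F.L - F.S tp - F.S tq + F.zH := by
  have h := H_glue_pair (p₁ := F.two tp) (p₂ := F.p) (Z₁ := fun w => (F.pt tq w.1, F.Z w.1))
    (Z₂ := fun ω => (F.pt tq ω, F.Z ω)) (F.two_nonneg tp) F.hp (F.law_eq_three tp tq)
    (X := fun w => (F.g w.1, F.g w.2, F.Z w.1)) (Y := fun ω => (F.g ω, F.Z ω)) ?_ ?_
  · have e : H (F.three tp tq) (fun w => (F.g w.1.1, F.g w.1.2, F.g w.2, F.Z w.1.1)) =
        H (F.three tp tq) (fun w => ((F.g w.1.1, F.g w.1.2, F.Z w.1.1), (F.g w.2, F.Z w.2))) := by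
      refine H_congr (F.three_nonneg tp tq) ?_ ?_
      · intro w w' _ _ h
        simp only [Prod.mk.injEq] at h ⊢
        exact ⟨h.1.1, h.1.2.1, h.2.1, h.1.2.2⟩
      · intro w w' hw hw' h
        simp only [Prod.mk.injEq] at h ⊢
        obtain ⟨_, _, _, _, _, _, h3⟩ := F.three_pos hw
        obtain ⟨_, _, _, _, _, _, h4⟩ := F.three_pos hw'
        exact ⟨⟨h.1, h.2.1, h.2.2.2⟩, h.2.2.1, by rw [← h3, ← h4, h.2.2.2]⟩
    rw [e]
    unfold three
    rw [h, F.H_two_lines, F.H_two_fst tp (fun ω => (F.pt tq ω, F.Z ω))]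
    unfold L S
    ring
  · intro w w' hw hw' h
    obtain ⟨a1, _⟩ := F.two_pos hw
    obtain ⟨b1, _⟩ := F.two_pos hw'
    simp only [Prod.mk.injEq, pt] at h ⊢
    exact ⟨by rw [F.det_line a1 b1 h.1 h.2.2, h.1], h.2.2⟩
  · intro ω ω' hω hω' h
    simp only [Prod.mk.injEq, pt] at h ⊢
    exact ⟨by rw [F.det_line hω hω' h.1 h.2, h.1], h.2⟩

/-- The slope inequality, conditional on `Z`, with the total weight collected. -/
theorem _root_.Pool.Agent.H49.Ent.AKW.ineq {T : Finset ℚ} {w : ℚ → ℝ} {a : ℝ} (h : AKW T w)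
    (ha : ∑ t ∈ T, w t = a) {Ω : Type} [Fintype Ω] {p : Ω → ℝ} (hp : ∀ ω, 0 ≤ p ω)
    (f g : Ω → ℚ) {U : Type*} (Z : Ω → U) :
    H p (fun ω => (g ω, Z ω)) + (a - 1) * H p Z ≤
      ∑ t ∈ T, w t * H p (fun ω => (f ω + t * g ω, Z ω)) := by
  have h1 := h.cond' hp f g Z
  have h2 : ∑ t ∈ T, w t * (H p (fun ω => (f ω + t * g ω, Z ω)) - H p Z)
      = ∑ t ∈ T, w t * H p (fun ω => (f ω + t * g ω, Z ω)) - a * H p Z := by
    simp only [mul_sub, Finset.sum_sub_distrib]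
    rw [← Finset.sum_mul, ha]
  rw [h2] at h1
  linarith

/-- the time `r` for which `X` is a combination of `pt τ w₀` and `pt r w₁` -/
def rt (t s c τ : ℚ) : ℚ := t + c * (τ - t) / (τ - s)

theorem X_identity {t s c τ : ℚ} (hs : τ ≠ s) {w : F.Ω × F.Ω} (hw : 0 < F.two t w) :
    (τ - t) * F.X s c w = (s - t) * F.pt τ w.1 + (τ - s) * F.pt (rt t s c τ) w.2 := by
  obtain ⟨_, _, h3, _⟩ := F.two_pos hw
  have h4 : τ - s ≠ 0 := sub_ne_zero.mpr hs
  unfold X pt rt
  field_simp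
  linear_combination (τ - s) * h3

/-- the line `w₀` together with `X` determines both lines -/
theorem H_two_gX {t s c : ℚ} (hc : c ≠ 0) :
    H (F.two t) (fun w => (F.g w.1, F.X s c w, F.Z w.1)) = 2 * F.L - F.S t + F.zH := by
  rw [← F.H_two_lines]
  refine H_congr (F.two_nonneg t) ?_ ?_
  · intro w w' hw hw' h
    obtain ⟨a1, _⟩ := F.two_pos hw
    obtain ⟨b1, _⟩ := F.two_pos hw'
    simp only [Prod.mk.injEq, X, pt] at h ⊢
    have e := F.det_line a1 b1 h.1 h.2.2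
    exact ⟨h.1, by rw [e, h.1, h.2.1], h.2.2⟩
  · intro w w' hw hw' h
    obtain ⟨a1, _⟩ := F.two_pos hw
    obtain ⟨b1, _⟩ := F.two_pos hw'
    simp only [Prod.mk.injEq, X, pt] at h ⊢
    have e := F.det_line a1 b1 h.1 h.2.2
    refine ⟨h.1, ?_, h.2.2⟩
    have h5 := h.2.1
    rw [e, h.1] at h5
    exact mul_left_cancel₀ hc (add_left_cancel h5)

/-- a point of `w₀` together with `X` is the same as a pair of points -/
theorem H_two_ptX {t s c τ : ℚ} (n1 : τ ≠ t) (n2 : τ ≠ s) :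
    H (F.two t) (fun w => (F.pt τ w.1, F.X s c w, F.Z w.1)) =
      F.m t τ (rt t s c τ) + F.zH := by
  unfold m
  rw [sub_add_cancel]
  refine H_congr (F.two_nonneg t) ?_ ?_
  · intro w w' hw hw' h
    have i1 := F.X_identity (t := t) (s := s) (c := c) n2 hw
    have i2 := F.X_identity (t := t) (s := s) (c := c) n2 hw'
    simp only [Prod.mk.injEq] at h ⊢
    refine ⟨h.1, ?_, h.2.2⟩
    rw [h.1, h.2.1] at i1
    exact mul_left_cancel₀ (sub_ne_zero.mpr n1) (i1.trans i2.symm)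
  · intro w w' hw hw' h
    have i1 := F.X_identity (t := t) (s := s) (c := c) n2 hw
    have i2 := F.X_identity (t := t) (s := s) (c := c) n2 hw'
    simp only [Prod.mk.injEq] at h ⊢
    refine ⟨h.1, ?_, h.2.2⟩
    rw [h.2.1, h.1] at i1
    exact mul_left_cancel₀ (sub_ne_zero.mpr n2) (add_left_cancel (i1.symm.trans i2))

/-- Inequality (III). -/
theorem ineq_III {T : Finset ℚ} {w : ℚ → ℝ} {a : ℝ} (h : AKW T w)
    (ha : ∑ t ∈ T, w t = a) {t s c : ℚ} (hc : c ≠ 0) (hTt : t ∉ T) (hTs : s ∉ T) :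
    2 * F.L - F.S t + (a - 1) * F.x t s c ≤ ∑ τ ∈ T, w τ * F.m t τ (rt t s c τ) := by
  have h1 := h.ineq ha (F.two_nonneg t) (fun w => F.f w.1) (fun w => F.g w.1)
    (fun w => (F.X s c w, F.Z w.1))
  have e2 : ∀ τ ∈ T, H (F.two t) (fun w => (F.f w.1 + τ * F.g w.1, F.X s c w, F.Z w.1)) =
      F.m t τ (rt t s c τ) + F.zH := by
    intro τ hτ
    have n1 : τ ≠ t := fun h => hTt (h ▸ hτ)
    have n2 : τ ≠ s := fun h => hTs (h ▸ hτ)
    exact F.H_two_ptX n1 n2
  rw [F.H_two_gX hc, Finset.sum_congr rfl (fun τ hτ => by rw [e2 τ hτ])] at h1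
  simp only [mul_add, Finset.sum_add_distrib] at h1
  rw [← Finset.sum_mul, ha] at h1
  have e3 : H (F.two t) (fun w => (F.X s c w, F.Z w.1)) = F.x t s c + F.zH := by
    unfold x; ring
  rw [e3] at h1
  linarith

/-- Inequality (IV). -/
theorem ineq_IV (t s r : ℚ) : F.m t s r ≤ F.S s + F.S r := by
  have h1 := submod (F.two_nonneg t) (X := fun w => (F.pt s w.1, F.Z w.1))
    (Y := fun w => (F.pt r w.2, F.Z w.2)) (Z := fun w => F.Z w.1)
    (W := fun w => (F.pt s w.1, F.pt r w.2, F.Z w.1)) ?_ ?_ ?_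
  · rw [F.H_two_Z, F.H_two_fst t (fun ω => (F.pt s ω, F.Z ω)),
      F.H_two_snd t (fun ω => (F.pt r ω, F.Z ω))] at h1
    unfold m S
    linarith
  · intro w w' _ _ h
    simp only [Prod.mk.injEq] at h
    exact h.2
  · intro w w' hw hw' h
    simp only [Prod.mk.injEq] at h
    show F.Z w.1 = F.Z w'.1
    rw [(F.two_pos hw).2.2.2, (F.two_pos hw').2.2.2]
    exact h.2
  · intro w w' _ _ h
    simp only [Prod.mk.injEq] at h ⊢
    exact ⟨h.1.1, h.2.1, h.1.2⟩

/-- `H(w₁, w₂ | Z)` -/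
theorem H_three_12 {tp tq : ℚ} (hpq : tp ≠ tq) :
    H (F.three tp tq) (fun w => (F.g w.1.2, F.g w.2, F.Z w.1.1)) =
      3 * F.L - F.S tp - F.S tq + F.zH := by
  rw [← F.H_three_lines]
  refine H_congr (F.three_nonneg tp tq) ?_ ?_
  · intro w w' _ _ h
    simp only [Prod.mk.injEq] at h ⊢
    exact ⟨h.2.1, h.2.2.1, h.2.2.2⟩
  · intro w w' hw hw' h
    obtain ⟨a1, a2, a3, a4, a5, a6, a7⟩ := F.three_pos hw
    obtain ⟨b1, b2, b3, b4, b5, b6, b7⟩ := F.three_pos hw'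
    simp only [Prod.mk.injEq] at h ⊢
    have f1 := F.det_line a2 b2 h.1 (by rw [← a6, ← b6, h.2.2])
    have f2 := F.det_line a3 b3 h.2.1 (by rw [← a7, ← b7, h.2.2])
    refine ⟨?_, h.1, h.2.1, h.2.2⟩
    rw [f1, h.1] at a4
    rw [f2, h.2.1] at a5
    have : (tp - tq) * (F.g w.1.1 - F.g w'.1.1) = 0 := by
      linear_combination a4 - b4 - a5 + b5
    rcases mul_eq_zero.mp this with h0 | h0
    · exact absurd (sub_eq_zero.mp h0) hpq
    · linarith

/-- The pair `(w₀, w₂)` has the law of two lines crossing at `tq`. -/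
theorem H_three_02 (tp tq : ℚ) {U : Type*} (V : F.Ω × F.Ω → U) :
    H (F.three tp tq) (fun w => V (w.1.1, w.2)) = H (F.two tq) V := by
  classical
  refine H_eq_of_marginal (fun w : (F.Ω × F.Ω) × F.Ω => (w.1.1, w.2)) (fun ω => ?_) V
  obtain ⟨ω0, ω2⟩ := ω
  have hs : ∑ i, F.two tp (ω0, i) = F.p ω0 := glue_fst F.hp (fun _ => rfl) ω0
  have e2 : ∑ i, F.three tp tq ((ω0, i), ω2) = F.two tq (ω0, ω2) := by
    by_cases h : (F.pt tq ω0, F.Z ω0) = (F.pt tq ω2, F.Z ω2)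
    · have g1 : ∀ i, F.three tp tq ((ω0, i), ω2) =
          F.two tp (ω0, i) * F.p ω2 /
            law F.p (fun ω => (F.pt tq ω, F.Z ω)) (F.pt tq ω0, F.Z ω0) := by
        intro i
        rw [← F.law_eq_three tp tq, three, glue, if_pos h]
      have g2 : F.two tq (ω0, ω2) =
          F.p ω0 * F.p ω2 /
            law F.p (fun ω => (F.pt tq ω, F.Z ω)) (F.pt tq ω0, F.Z ω0) := by
        rw [two, glue, if_pos h]
      rw [Finset.sum_congr rfl (fun i _ => g1 i), g2, ← Finset.sum_div, ← Finset.sum_mul, hs]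
    · have g1 : ∀ i, F.three tp tq ((ω0, i), ω2) = 0 := by
        intro i
        rw [three, glue, if_neg h]
      have g2 : F.two tq (ω0, ω2) = 0 := by
        rw [two, glue, if_neg h]
      rw [Finset.sum_congr rfl (fun i _ => g1 i), g2, Finset.sum_const_zero]
  rw [← e2, Fintype.sum_prod_type, Fintype.sum_prod_type, Finset.sum_eq_single ω0]
  · refine Finset.sum_congr rfl (fun i _ => ?_)
    rw [Finset.sum_eq_single ω2]
    · simp
    · intro b _ hb; simp [hb]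
    · intro h; exact absurd (Finset.mem_univ _) h
  · intro b _ hb
    refine Finset.sum_eq_zero (fun y _ => Finset.sum_eq_zero (fun z _ => ?_))
    rw [if_neg]
    simp [hb]
  · intro h; exact absurd (Finset.mem_univ _) h

/-- lower bound for `H(w₁, r | Z)` where `r = pt tr w₂` -/
theorem H_three_1r {tp tq tr : ℚ} (hrq : tr ≠ tq) :
    F.L - F.S tp + F.m tq tp tr + F.zH ≤
      H (F.three tp tq) (fun w => (F.g w.1.2, F.pt tr w.2, F.Z w.1.1)) := by
  have hB : H (F.three tp tq) (fun w => (F.g w.1.1, F.pt tr w.2, F.Z w.1.1)) =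
      2 * F.L - F.S tq + F.zH := by
    rw [F.H_three_02 tp tq (fun w => (F.g w.1, F.pt tr w.2, F.Z w.1)), ← F.H_two_lines]
    refine H_congr (F.two_nonneg tq) ?_ ?_
    · intro w w' hw hw' h
      obtain ⟨a1, a2, _, a4⟩ := F.two_pos hw
      obtain ⟨b1, b2, _, b4⟩ := F.two_pos hw'
      simp only [Prod.mk.injEq, pt] at h ⊢
      have e := F.det_line a2 b2 h.2.1 (by rw [← a4, ← b4, h.2.2])
      exact ⟨h.1, by rw [e, h.2.1], h.2.2⟩
    · intro w w' hw hw' h
      obtain ⟨a1, a2, a3, a4⟩ := F.two_pos hw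
      obtain ⟨b1, b2, b3, b4⟩ := F.two_pos hw'
      simp only [Prod.mk.injEq, pt] at h ⊢
      have e := F.det_line a1 b1 h.1 h.2.2
      refine ⟨h.1, ?_, h.2.2⟩
      have h5 := h.2.1
      rw [e, h.1] at a3
      have : (tr - tq) * (F.g w.2 - F.g w'.2) = 0 := by
        linear_combination h5 + a3 - b3
      rcases mul_eq_zero.mp this with h0 | h0
      · exact absurd (sub_eq_zero.mp h0) hrq
      · linarith
  have hZ : H (F.three tp tq) (fun w => (F.pt tp w.1.1, F.pt tr w.2, F.Z w.1.1)) =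
      F.m tq tp tr + F.zH := by
    rw [F.H_three_02 tp tq (fun w => (F.pt tp w.1, F.pt tr w.2, F.Z w.1))]
    unfold m; ring
  have h1 := submod (F.three_nonneg tp tq)
    (X := fun w => (F.g w.1.2, F.pt tr w.2, F.Z w.1.1))
    (Y := fun w => (F.g w.1.1, F.pt tr w.2, F.Z w.1.1))
    (Z := fun w => (F.pt tp w.1.1, F.pt tr w.2, F.Z w.1.1))
    (W := fun w => (F.g w.1.1, F.g w.1.2, F.g w.2, F.Z w.1.1)) ?_ ?_ ?_
  · rw [F.H_three_lines, hB, hZ] at h1
    linarith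
  · intro w w' hw hw' h
    obtain ⟨a1, a2, a3, a4, a5, a6, a7⟩ := F.three_pos hw
    obtain ⟨b1, b2, b3, b4, b5, b6, b7⟩ := F.three_pos hw'
    simp only [Prod.mk.injEq] at h ⊢
    have e := F.det_line a2 b2 h.1 (by rw [← a6, ← b6, h.2.2])
    refine ⟨?_, h.2.1, h.2.2⟩
    unfold pt
    rw [a4, b4, e, h.1]
  · intro w w' hw hw' h
    obtain ⟨a1, a2, a3, a4, a5, a6, a7⟩ := F.three_pos hw
    obtain ⟨b1, b2, b3, b4, b5, b6, b7⟩ := F.three_pos hw'
    simp only [Prod.mk.injEq] at h ⊢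
    have e := F.det_line a1 b1 h.1 h.2.2
    refine ⟨?_, h.2.1, h.2.2⟩
    unfold pt
    rw [e, h.1]
  · intro w w' hw hw' h
    obtain ⟨a1, a2, a3, a4, a5, a6, a7⟩ := F.three_pos hw
    obtain ⟨b1, b2, b3, b4, b5, b6, b7⟩ := F.three_pos hw'
    simp only [Prod.mk.injEq, pt] at h ⊢
    have e := F.det_line a1 b1 h.2.1 h.1.2.2
    refine ⟨h.2.1, h.1.1, ?_, h.1.2.2⟩
    have h5 := h.1.2.1
    rw [e, h.2.1] at a5
    have : (tr - tq) * (F.g w.2 - F.g w'.2) = 0 := by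
      linear_combination h5 + a5 - b5
    rcases mul_eq_zero.mp this with h0 | h0
    · exact absurd (sub_eq_zero.mp h0) hrq
    · linarith

/-- the functional `Y = pt tr w₂ + c g(w₁)` -/
def Yf (tr c : ℚ) (w : (F.Ω × F.Ω) × F.Ω) : ℚ := F.pt tr w.2 + c * F.g w.1.2

/-- Inequality (II). -/
theorem ineq_II {tp tq tr c : ℚ} (hrq : tr ≠ tq) (hc : c ≠ 0) :
    F.L - F.S tp - F.S tr + F.m tq tp tr + F.zH ≤
      H (F.three tp tq) (fun w => (F.Yf tr c w, F.Z w.1.1)) := by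
  have h1 := submod (F.three_nonneg tp tq)
    (X := fun w => (F.Yf tr c w, F.Z w.1.1))
    (Y := fun w => (F.pt tr w.2, F.Z w.2))
    (Z := fun w => F.Z w.1.1)
    (W := fun w => (F.g w.1.2, F.pt tr w.2, F.Z w.1.1)) ?_ ?_ ?_
  · have h2 := F.H_three_1r (tp := tp) (tq := tq) (tr := tr) hrq
    rw [F.H_three_snd tp tq (fun ω => (F.pt tr ω, F.Z ω)),
      F.H_three_fst tp tq (fun w => F.Z w.1), F.H_two_Z] at h1
    have h3 : H F.p (fun ω => (F.pt tr ω, F.Z ω)) = F.S tr + F.zH := by unfold S; ring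
    rw [h3] at h1
    linarith
  · intro w w' _ _ h
    simp only [Prod.mk.injEq] at h
    exact h.2
  · intro w w' hw hw' h
    simp only [Prod.mk.injEq] at h
    show F.Z w.1.1 = F.Z w'.1.1
    rw [(F.three_pos hw).2.2.2.2.2.2, (F.three_pos hw').2.2.2.2.2.2]
    exact h.2
  · intro w w' _ _ h
    simp only [Prod.mk.injEq, Yf] at h ⊢
    refine ⟨?_, h.2.1, h.1.2⟩
    have h5 := h.1.1
    rw [h.2.1] at h5
    exact mul_left_cancel₀ hc (add_left_cancel h5)

/-- Inequality (I). -/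
theorem ineq_I {T : Finset ℚ} {w : ℚ → ℝ} {a : ℝ} (h : AKW T w)
    (hw : ∀ t ∈ T, 0 ≤ w t)
    (ha : ∑ t ∈ T, w t = a) {tp tq tr c : ℚ} (hpq : tp ≠ tq) (hc : c ≠ 0) (hTq : tq ∉ T)
    (hTr : tr ∉ T) :
    3 * F.L - F.S tp - F.S tq +
      (a - 1) * (H (F.three tp tq) (fun w => (F.Yf tr c w, F.Z w.1.1)) - F.zH) ≤
      ∑ τ ∈ T, w τ * (F.S τ + F.x tp tq (c * (τ - tq) / (τ - tr))) := by
  have h1 := h.ineq ha (F.three_nonneg tp tq) (fun w => F.f w.2) (fun w => F.g w.2)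
    (fun w => (F.Yf tr c w, F.Z w.1.1))
  have e1 : H (F.three tp tq) (fun w => (F.g w.2, F.Yf tr c w, F.Z w.1.1)) =
      3 * F.L - F.S tp - F.S tq + F.zH := by
    rw [← F.H_three_12 hpq]
    refine H_congr (F.three_nonneg tp tq) ?_ ?_
    · intro w w' hw hw' h
      obtain ⟨a1, a2, a3, a4, a5, a6, a7⟩ := F.three_pos hw
      obtain ⟨b1, b2, b3, b4, b5, b6, b7⟩ := F.three_pos hw'
      simp only [Prod.mk.injEq, Yf, pt] at h ⊢
      have e := F.det_line a3 b3 h.2.1 (by rw [← a7, ← b7, h.2.2])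
      exact ⟨h.2.1, by rw [e, h.2.1, h.1], h.2.2⟩
    · intro w w' hw hw' h
      obtain ⟨a1, a2, a3, a4, a5, a6, a7⟩ := F.three_pos hw
      obtain ⟨b1, b2, b3, b4, b5, b6, b7⟩ := F.three_pos hw'
      simp only [Prod.mk.injEq, Yf, pt] at h ⊢
      have e := F.det_line a3 b3 h.1 (by rw [← a7, ← b7, h.2.2])
      refine ⟨?_, h.1, h.2.2⟩
      have h5 := h.2.1
      rw [e, h.1] at h5
      exact mul_left_cancel₀ hc (add_left_cancel h5)
  have e2 : ∀ τ ∈ T, H (F.three tp tq) (fun w => (F.f w.2 + τ * F.g w.2, F.Yf tr c w,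
      F.Z w.1.1)) ≤ F.S τ + F.x tp tq (c * (τ - tq) / (τ - tr)) + F.zH := by
    intro τ hτ
    have n1 : τ - tq ≠ 0 := sub_ne_zero.mpr (fun h => hTq (h ▸ hτ))
    have n2 : τ - tr ≠ 0 := sub_ne_zero.mpr (fun h => hTr (h ▸ hτ))
    have h2 := submod (F.three_nonneg tp tq)
      (X := fun w => (F.pt τ w.2, F.Z w.2))
      (Y := fun w => (F.X tq (c * (τ - tq) / (τ - tr)) w.1, F.Z w.1.1))
      (Z := fun w => F.Z w.1.1)
      (W := fun w => (F.f w.2 + τ * F.g w.2, F.Yf tr c w, F.Z w.1.1)) ?_ ?_ ?_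
    · rw [F.H_three_snd tp tq (fun ω => (F.pt τ ω, F.Z ω)),
        F.H_three_fst tp tq (fun w => F.Z w.1), F.H_two_Z,
        F.H_three_fst tp tq (fun w => (F.X tq (c * (τ - tq) / (τ - tr)) w, F.Z w.1))] at h2
      unfold S x
      linarith
    · intro w w' hw hw' h
      simp only [Prod.mk.injEq] at h
      show F.Z w.1.1 = F.Z w'.1.1
      rw [(F.three_pos hw).2.2.2.2.2.2, (F.three_pos hw').2.2.2.2.2.2]
      exact h.2
    · intro w w' _ _ h
      simp only [Prod.mk.injEq] at h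
      exact h.2
    · intro w w' hw hw' h
      obtain ⟨a1, a2, a3, a4, a5, a6, a7⟩ := F.three_pos hw
      obtain ⟨b1, b2, b3, b4, b5, b6, b7⟩ := F.three_pos hw'
      simp only [Prod.mk.injEq] at h ⊢
      have key : ∀ w : (F.Ω × F.Ω) × F.Ω,
          F.f w.1.1 + tq * F.g w.1.1 = F.f w.2 + tq * F.g w.2 →
          (τ - tq) * F.Yf tr c w = (tr - tq) * F.pt τ w.2 +
            (τ - tr) * F.X tq (c * (τ - tq) / (τ - tr)) w.1 := by
        intro w hw5
        unfold Yf X pt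
        field_simp
        linear_combination -(τ - tr) * hw5
      refine ⟨h.1.1, ?_, h.2.2⟩
      have k1 := key w a5
      have k2 := key w' b5
      rw [h.1.1, h.2.1, ← k2] at k1
      exact mul_left_cancel₀ n1 k1
  rw [e1] at h1
  have h3 := Finset.sum_le_sum (fun τ hτ => mul_le_mul_of_nonneg_left (e2 τ hτ) (hw τ hτ))
  have h4 : ∑ τ ∈ T, w τ * (F.S τ + F.x tp tq (c * (τ - tq) / (τ - tr)) + F.zH) =
      ∑ τ ∈ T, w τ * (F.S τ + F.x tp tq (c * (τ - tq) / (τ - tr))) + a * F.zH := by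
    simp only [mul_add, Finset.sum_add_distrib]
    rw [← Finset.sum_mul, ha]
  rw [h4] at h3
  linarith

/-- the entropy of `g(w₁) + c g(w₂)` given the context -/
noncomputable def y (tp tq c : ℚ) : ℝ :=
  H (F.three tp tq) (fun w => (F.g w.1.2 + c * F.g w.2, F.Z w.1.1)) - F.zH

/-- Upper bound for `y`. -/
theorem ineq_y {T : Finset ℚ} {w : ℚ → ℝ} {a : ℝ} (h : AKW T w)
    (hw : ∀ t ∈ T, 0 ≤ w t)
    (ha : ∑ t ∈ T, w t = a) {tp tq c : ℚ} (hpq : tp ≠ tq) (hc : c ≠ 0) (hTq : tq ∉ T) :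
    3 * F.L - F.S tp - F.S tq + (a - 1) * F.y tp tq c ≤
      ∑ τ ∈ T, w τ * (F.S τ + F.x tp tq (-(τ - tq) / c)) := by
  have h1 := h.ineq ha (F.three_nonneg tp tq) (fun w => F.f w.2) (fun w => F.g w.2)
    (fun w => (F.g w.1.2 + c * F.g w.2, F.Z w.1.1))
  have e1 : H (F.three tp tq) (fun w => (F.g w.2, F.g w.1.2 + c * F.g w.2, F.Z w.1.1)) =
      3 * F.L - F.S tp - F.S tq + F.zH := by
    rw [← F.H_three_12 hpq]
    refine H_congr (F.three_nonneg tp tq) ?_ ?_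
    · intro w w' _ _ h
      simp only [Prod.mk.injEq] at h ⊢
      exact ⟨h.2.1, by rw [h.1, h.2.1], h.2.2⟩
    · intro w w' _ _ h
      simp only [Prod.mk.injEq] at h ⊢
      refine ⟨?_, h.1, h.2.2⟩
      have h5 := h.2.1
      rw [h.1] at h5
      exact add_right_cancel h5
  have e2 : ∀ τ ∈ T, H (F.three tp tq) (fun w => (F.f w.2 + τ * F.g w.2,
      F.g w.1.2 + c * F.g w.2, F.Z w.1.1)) ≤ F.S τ + F.x tp tq (-(τ - tq) / c) + F.zH := by
    intro τ hτ
    have n1 : τ - tq ≠ 0 := sub_ne_zero.mpr (fun h => hTq (h ▸ hτ))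
    have h2 := submod (F.three_nonneg tp tq)
      (X := fun w => (F.pt τ w.2, F.Z w.2))
      (Y := fun w => (F.X tq (-(τ - tq) / c) w.1, F.Z w.1.1))
      (Z := fun w => F.Z w.1.1)
      (W := fun w => (F.f w.2 + τ * F.g w.2, F.g w.1.2 + c * F.g w.2, F.Z w.1.1)) ?_ ?_ ?_
    · rw [F.H_three_snd tp tq (fun ω => (F.pt τ ω, F.Z ω)),
        F.H_three_fst tp tq (fun w => F.Z w.1), F.H_two_Z,
        F.H_three_fst tp tq (fun w => (F.X tq (-(τ - tq) / c) w, F.Z w.1))] at h2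
      unfold S x
      linarith
    · intro w w' hw hw' h
      simp only [Prod.mk.injEq] at h
      show F.Z w.1.1 = F.Z w'.1.1
      rw [(F.three_pos hw).2.2.2.2.2.2, (F.three_pos hw').2.2.2.2.2.2]
      exact h.2
    · intro w w' _ _ h
      simp only [Prod.mk.injEq] at h
      exact h.2
    · intro w w' hw hw' h
      obtain ⟨a1, a2, a3, a4, a5, a6, a7⟩ := F.three_pos hw
      obtain ⟨b1, b2, b3, b4, b5, b6, b7⟩ := F.three_pos hw'
      simp only [Prod.mk.injEq] at h ⊢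
      have key : ∀ w : (F.Ω × F.Ω) × F.Ω,
          F.f w.1.1 + tq * F.g w.1.1 = F.f w.2 + tq * F.g w.2 →
          (τ - tq) * (F.g w.1.2 + c * F.g w.2) = c * F.pt τ w.2 -
            c * F.X tq (-(τ - tq) / c) w.1 := by
        intro w hw5
        unfold X pt
        field_simp
        linear_combination c * hw5
      refine ⟨h.1.1, ?_, h.2.2⟩
      have k1 := key w a5
      have k2 := key w' b5
      rw [h.1.1, h.2.1, ← k2] at k1
      exact mul_left_cancel₀ n1 k1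
  rw [e1] at h1
  have h3 := Finset.sum_le_sum (fun τ hτ => mul_le_mul_of_nonneg_left (e2 τ hτ) (hw τ hτ))
  have h4 : ∑ τ ∈ T, w τ * (F.S τ + F.x tp tq (-(τ - tq) / c) + F.zH) =
      ∑ τ ∈ T, w τ * (F.S τ + F.x tp tq (-(τ - tq) / c)) + a * F.zH := by
    simp only [mul_add, Finset.sum_add_distrib]
    rw [← Finset.sum_mul, ha]
  rw [h4] at h3
  have h5 : H (F.three tp tq) (fun w => (F.g w.1.2 + c * F.g w.2, F.Z w.1.1)) =
      F.y tp tq c + F.zH := by unfold y; ring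
  rw [h5] at h1
  linarith

end Fam

end Pool.Agent.H49.Ent
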