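import Mathlib
import Pool.Agent.H49.Fam

/-!
Nonnegative combinations of entropies with bookkeeping of the total mass, the lower bound
iteration for `x` and `m`, upper bounds for `x` and `y`.
-/

namespace Pool.Agent.H49.Ent

open Finset Real
open scoped BigOperators

/-- `Φ` is a nonnegative combination of members of `G` of total mass `B`. -/
inductive Comb (G : Set (Fam → ℝ)) : ℝ → (Fam → ℝ) → Prop
  | zero : Comb G 0 (fun _ => 0)
  | add {B : ℝ} {Φ : Fam → ℝ} (c : ℝ) (hc : 0 ≤ c) (φ : Fam → ℝ) (hφ : φ ∈ G)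
      (h : Comb G B Φ) : Comb G (B + c) (fun F => Φ F + c * φ F)

namespace Comb

variable {G G' : Set (Fam → ℝ)} {B B' : ℝ} {Φ Φ' : Fam → ℝ}

theorem congr (h : Comb G B Φ) (hB : B = B') (hΦ : ∀ F, Φ F = Φ' F) : Comb G B' Φ' := by
  have : Φ = Φ' := funext hΦ
  subst hB; subst this; exact h

theorem of_mem {φ : Fam → ℝ} (h : φ ∈ G) : Comb G 1 φ :=
  (Comb.add 1 zero_le_one φ h Comb.zero).congr (by ring) (fun F => by ring)

theorem plus (h : Comb G B Φ) (h' : Comb G B' Φ') : Comb G (B + B') (fun F => Φ F + Φ' F) := by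
  induction h' with
  | zero => exact h.congr (by ring) (fun F => by ring)
  | add c hc φ hφ _ ih => exact (Comb.add c hc φ hφ ih).congr (by ring) (fun F => by ring)

theorem smul {c : ℝ} (hc : 0 ≤ c) (h : Comb G B Φ) : Comb G (c * B) (fun F => c * Φ F) := by
  induction h with
  | zero => exact Comb.zero.congr (by ring) (fun F => by ring)
  | add d hd φ hφ _ ih =>
    exact (Comb.add (c * d) (mul_nonneg hc hd) φ hφ ih).congr (by ring) (fun F => by ring)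

theorem mono (hG : G ⊆ G') (h : Comb G B Φ) : Comb G' B Φ := by
  induction h with
  | zero => exact Comb.zero
  | add d hd φ hφ _ ih => exact Comb.add d hd φ (hG hφ) ih

theorem sum (T : Finset ℚ) (w : ℚ → ℝ) (hw : ∀ t ∈ T, 0 ≤ w t) (φ : ℚ → Fam → ℝ) {b : ℝ}
    (h : ∀ t ∈ T, Comb G b (φ t)) :
    Comb G ((∑ t ∈ T, w t) * b) (fun F => ∑ t ∈ T, w t * φ t F) := by
  classical
  induction T using Finset.induction_on with
  | empty => exact Comb.zero.congr (by simp) (fun F => by simp)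
  | insert x T hx ih =>
    have h1 := ih (fun t ht => hw t (Finset.mem_insert_of_mem ht))
      (fun t ht => h t (Finset.mem_insert_of_mem ht))
    have h2 := (h x (Finset.mem_insert_self x T)).smul (hw x (Finset.mem_insert_self x T))
    refine (h1.plus h2).congr ?_ (fun F => ?_)
    · rw [Finset.sum_insert hx]; ring
    · rw [Finset.sum_insert hx]; ring

/-- Lifting an inequality from the generators to the combinations. -/
theorem lift {G₁ G₂ : Set (Fam → ℝ)} {b₁ b₂ l k : ℝ}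
    (hstep : ∀ φ ∈ G, ∃ Φ₁ Φ₂, Comb G₁ b₁ Φ₁ ∧ Comb G₂ b₂ Φ₂ ∧
      ∀ F : Fam, l * F.L + k * φ F ≤ Φ₁ F + Φ₂ F) (h : Comb G B Φ) :
    ∃ Φ₁ Φ₂, Comb G₁ (B * b₁) Φ₁ ∧ Comb G₂ (B * b₂) Φ₂ ∧
      ∀ F : Fam, B * l * F.L + k * Φ F ≤ Φ₁ F + Φ₂ F := by
  induction h with
  | zero =>
    exact ⟨fun _ => 0, fun _ => 0, Comb.zero.congr (by ring) (fun _ => rfl),
      Comb.zero.congr (by ring) (fun _ => rfl), fun F => by simp⟩
  | add c hc φ hφ _ ih =>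
    obtain ⟨Φ₁, Φ₂, h1, h2, h3⟩ := ih
    obtain ⟨Ψ₁, Ψ₂, g1, g2, g3⟩ := hstep φ hφ
    refine ⟨fun F => Φ₁ F + c * Ψ₁ F, fun F => Φ₂ F + c * Ψ₂ F,
      (h1.plus (g1.smul hc)).congr (by ring) (fun _ => rfl),
      (h2.plus (g2.smul hc)).congr (by ring) (fun _ => rfl), fun F => ?_⟩
    have := mul_le_mul_of_nonneg_left (g3 F) hc
    have := h3 F
    dsimp only
    nlinarith

end Comb

/-- slice entropies at times outside `bad` -/
def SG (bad : Finset ℚ) : Set (Fam → ℝ) := {φ | ∃ t, t ∉ bad ∧ φ = fun F => F.S t}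

/-- the functionals `x` -/
def XG : Set (Fam → ℝ) := {φ | ∃ t s c : ℚ, t ≠ s ∧ c ≠ 0 ∧ φ = fun F => F.x t s c}

/-- the functionals `m` -/
def MG : Set (Fam → ℝ) := {φ | ∃ t s r : ℚ, s ≠ t ∧ r ≠ t ∧ φ = fun F => F.m t s r}

theorem combS {bad : Finset ℚ} {t : ℚ} (ht : t ∉ bad) : Comb (SG bad) 1 (fun F => F.S t) :=
  Comb.of_mem ⟨t, ht, rfl⟩

theorem combS0 (t : ℚ) : Comb (SG ∅) 1 (fun F => F.S t) := combS (Finset.notMem_empty t)

theorem rt_ne {t s c τ : ℚ} (hc : c ≠ 0) (n1 : τ ≠ t) (n2 : τ ≠ s) : Fam.rt t s c τ ≠ t := by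
  unfold Fam.rt
  have h1 := sub_ne_zero.mpr n1
  have h2 := sub_ne_zero.mpr n2
  intro h
  have h3 : c * (τ - t) / (τ - s) = 0 := by linarith
  rcases div_eq_zero_iff.mp h3 with h4 | h4
  · exact (mul_ne_zero hc h1) h4
  · exact h2 h4

/-- (III) for a generator of `XG`. -/
theorem stepXM {a : ℝ} (hgood : Good a) {φ : Fam → ℝ} (hφ : φ ∈ XG) :
    ∃ Φ₁ Φ₂, Comb (SG ∅) 1 Φ₁ ∧ Comb MG a Φ₂ ∧
      ∀ F : Fam, 2 * F.L + (a - 1) * φ F ≤ Φ₁ F + Φ₂ F := by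
  obtain ⟨t, s, c, _, hc, rfl⟩ := hφ
  obtain ⟨T, w, hw, hbad, hsum, hAK⟩ := hgood.avoid {t, s}
  have hT : ∀ τ ∈ T, τ ≠ t ∧ τ ≠ s := by
    intro τ hτ
    have := hbad τ hτ
    simp only [Finset.mem_insert, Finset.mem_singleton, not_or] at this
    exact this
  refine ⟨fun F => F.S t, fun F => ∑ τ ∈ T, w τ * F.m t τ (Fam.rt t s c τ), combS0 t,
    (Comb.sum (b := 1) T w hw (fun τ F => F.m t τ (Fam.rt t s c τ)) (fun τ hτ => ?_)).congr
      (by rw [hsum]; ring) (fun _ => rfl), fun F => ?_⟩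
  · exact Comb.of_mem ⟨t, τ, _, (hT τ hτ).1, rt_ne hc (hT τ hτ).1 (hT τ hτ).2, rfl⟩
  · have := F.ineq_III hAK hsum (t := t) (s := s) (c := c) hc
      (fun h => (hT t h).1 rfl) (fun h => (hT s h).2 rfl)
    dsimp only
    linarith

/-- (I) and (II) for a generator of `MG`. -/
theorem stepMX {a : ℝ} (hgood : Good a) (ha : 1 ≤ a) {φ : Fam → ℝ} (hφ : φ ∈ MG) :
    ∃ Φ₁ Φ₂, Comb (SG ∅) (3 * a) Φ₁ ∧ Comb XG a Φ₂ ∧
      ∀ F : Fam, (a + 2) * F.L + (a - 1) * φ F ≤ Φ₁ F + Φ₂ F := by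
  obtain ⟨t, s, r, hs, hr, rfl⟩ := hφ
  obtain ⟨T, w, hw, hbad, hsum, hAK⟩ := hgood.avoid {t, r}
  have hT : ∀ τ ∈ T, τ ≠ t ∧ τ ≠ r := by
    intro τ hτ
    have := hbad τ hτ
    simp only [Finset.mem_insert, Finset.mem_singleton, not_or] at this
    exact this
  refine ⟨fun F => (F.S s + F.S t + (a - 1) * (F.S s + F.S r)) + ∑ τ ∈ T, w τ * F.S τ,
    fun F => ∑ τ ∈ T, w τ * F.x s t (1 * (τ - t) / (τ - r)), ?_, ?_, fun F => ?_⟩
  · refine (((combS0 s).plus (combS0 t)).plus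
      (((combS0 s).plus (combS0 r)).smul (sub_nonneg.mpr ha))).plus
      (Comb.sum (b := 1) T w hw (fun τ F => F.S τ) (fun τ _ => combS0 τ)) |>.congr ?_
      (fun F => rfl)
    rw [hsum]; ring
  · refine (Comb.sum (b := 1) T w hw (fun τ F => F.x s t (1 * (τ - t) / (τ - r)))
      (fun τ hτ => ?_)).congr (by rw [hsum]; ring) (fun _ => rfl)
    refine Comb.of_mem ⟨s, t, _, hs, ?_, rfl⟩
    have h1 := sub_ne_zero.mpr (hT τ hτ).1
    have h2 := sub_ne_zero.mpr (hT τ hτ).2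
    positivity
  · have h1 := F.ineq_I hAK hw hsum (tp := s) (tq := t) (tr := r) (c := 1) hs one_ne_zero
      (fun h => (hT t h).1 rfl) (fun h => (hT r h).2 rfl)
    have h2 := F.ineq_II (tp := s) (tq := t) (tr := r) (c := 1) hr one_ne_zero
    have h3 := mul_le_mul_of_nonneg_left h2 (sub_nonneg.mpr ha)
    simp only [mul_add, Finset.sum_add_distrib] at h1 ⊢
    nlinarith

/-- a lower bound for averages of `x` -/
def LBX (A B : ℝ) : Prop :=
  ∃ Ψ Φ, Comb XG 1 Ψ ∧ Comb (SG ∅) B Φ ∧ ∀ F : Fam, A * F.L ≤ Φ F + Ψ F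

/-- a lower bound for averages of `m` -/
def LBM (A B : ℝ) : Prop :=
  ∃ Ψ Φ, Comb MG 1 Ψ ∧ Comb (SG ∅) B Φ ∧ ∀ F : Fam, A * F.L ≤ Φ F + Ψ F

theorem Fam.x_nonneg (F : Fam) (t s c : ℚ) : 0 ≤ F.x t s c := by
  unfold Fam.x
  rw [← F.H_two_Z t, sub_nonneg]
  refine H_mono (F.two_nonneg t) (fun w w' _ _ h => ?_)
  simp only [Prod.mk.injEq] at h
  exact h.2

theorem LBX_zero : LBX 0 0 :=
  ⟨fun F => F.x 0 1 1, fun _ => 0, Comb.of_mem ⟨0, 1, 1, by norm_num, by norm_num, rfl⟩,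
    Comb.zero, fun F => by have := F.x_nonneg 0 1 1; simpa using this⟩

theorem LBX.toM {a A B : ℝ} (hgood : Good a) (ha : 1 ≤ a) (h : LBX A B) :
    LBM ((2 + (a - 1) * A) / a) ((1 + (a - 1) * B) / a) := by
  obtain ⟨Ψ, Φ, h1, h2, h3⟩ := h
  have ha0 : 0 < a := by linarith
  obtain ⟨Φ₁, Φ₂, g1, g2, g3⟩ := h1.lift (fun φ hφ => stepXM hgood hφ)
  refine ⟨fun F => a⁻¹ * Φ₂ F, fun F => a⁻¹ * (Φ₁ F + (a - 1) * Φ F),
    (g2.smul (inv_nonneg.mpr ha0.le)).congr (by field_simp) (fun _ => rfl),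
    ((g1.plus (h2.smul (sub_nonneg.mpr ha))).smul (inv_nonneg.mpr ha0.le)).congr
      (by field_simp) (fun _ => rfl), fun F => ?_⟩
  have e1 := g3 F
  have e2 := mul_le_mul_of_nonneg_left (h3 F) (sub_nonneg.mpr ha)
  have e3 : (2 + (a - 1) * A) * F.L ≤ (Φ₁ F + (a - 1) * Φ F) + Φ₂ F := by nlinarith
  have e4 := mul_le_mul_of_nonneg_left e3 (inv_nonneg.mpr ha0.le)
  calc (2 + (a - 1) * A) / a * F.L = a⁻¹ * ((2 + (a - 1) * A) * F.L) := by ring
    _ ≤ a⁻¹ * ((Φ₁ F + (a - 1) * Φ F) + Φ₂ F) := e4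
    _ = _ := by ring

theorem LBM.toX {a A B : ℝ} (hgood : Good a) (ha : 1 ≤ a) (h : LBM A B) :
    LBX ((a + 2 + (a - 1) * A) / a) ((3 * a + (a - 1) * B) / a) := by
  obtain ⟨Ψ, Φ, h1, h2, h3⟩ := h
  have ha0 : 0 < a := by linarith
  obtain ⟨Φ₁, Φ₂, g1, g2, g3⟩ := h1.lift (fun φ hφ => stepMX hgood ha hφ)
  refine ⟨fun F => a⁻¹ * Φ₂ F, fun F => a⁻¹ * (Φ₁ F + (a - 1) * Φ F),
    (g2.smul (inv_nonneg.mpr ha0.le)).congr (by field_simp) (fun _ => rfl),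
    ((g1.plus (h2.smul (sub_nonneg.mpr ha))).smul (inv_nonneg.mpr ha0.le)).congr
      (by field_simp) (fun _ => rfl), fun F => ?_⟩
  have e1 := g3 F
  have e2 := mul_le_mul_of_nonneg_left (h3 F) (sub_nonneg.mpr ha)
  have e3 : (a + 2 + (a - 1) * A) * F.L ≤ (Φ₁ F + (a - 1) * Φ F) + Φ₂ F := by nlinarith
  have e4 := mul_le_mul_of_nonneg_left e3 (inv_nonneg.mpr ha0.le)
  calc (a + 2 + (a - 1) * A) / a * F.L = a⁻¹ * ((a + 2 + (a - 1) * A) * F.L) := by ring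
    _ ≤ a⁻¹ * ((Φ₁ F + (a - 1) * Φ F) + Φ₂ F) := e4
    _ = _ := by ring

/-- The iterated lower bound. -/
theorem LBX_iter {a : ℝ} (hgood : Good a) (ha : 1 < a) (n : ℕ) :
    LBX ((a ^ 2 + 4 * a - 2) / (2 * a - 1) * (1 - (((a - 1) / a) ^ 2) ^ n))
      ((3 * a ^ 2 + a - 1) / (2 * a - 1) * (1 - (((a - 1) / a) ^ 2) ^ n)) := by
  induction n with
  | zero => simpa using LBX_zero
  | succ n ih =>
    have h := (ih.toM hgood ha.le).toX hgood ha.le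
    have ha0 : a ≠ 0 := by linarith
    have ha1 : 2 * a - 1 ≠ 0 := by linarith
    obtain ⟨A, hA, hA'⟩ : ∃ A : ℝ, A = (a ^ 2 + 4 * a - 2) / (2 * a - 1) ∧
        A * (2 * a - 1) = a ^ 2 + 4 * a - 2 := ⟨_, rfl, div_mul_cancel₀ _ ha1⟩
    obtain ⟨B, hB, hB'⟩ : ∃ B : ℝ, B = (3 * a ^ 2 + a - 1) / (2 * a - 1) ∧
        B * (2 * a - 1) = 3 * a ^ 2 + a - 1 := ⟨_, rfl, div_mul_cancel₀ _ ha1⟩
    rw [← hA, ← hB] at h ⊢
    convert h using 1
    · rw [pow_succ (((a - 1) / a) ^ 2) n]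
      generalize (((a - 1) / a) ^ 2) ^ n = Q
      field_simp
      linear_combination hA'
    · rw [pow_succ (((a - 1) / a) ^ 2) n]
      generalize (((a - 1) / a) ^ 2) ^ n = Q
      field_simp
      linear_combination hB'

/-- Upper bound for `x`, with slices outside a prescribed set. -/
theorem upX {a : ℝ} (hgood : Good a) (bad : Finset ℚ) {t s c : ℚ}
    (ht : t ∉ bad) (hts : t ≠ s) (hc : c ≠ 0) :
    ∃ Φ, Comb (SG bad) (2 * a + 1) Φ ∧
      ∀ F : Fam, 2 * F.L + (a - 1) * F.x t s c ≤ Φ F := by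
  classical
  obtain ⟨T, w, hw, hbad, hsum, hAK⟩ := hgood.avoid
    ({t, s} ∪ bad ∪ bad.image (fun b => (c * t - (b - t) * s) / (c - (b - t))))
  have hT : ∀ τ ∈ T, τ ≠ t ∧ τ ≠ s ∧ τ ∉ bad ∧
      ∀ b ∈ bad, τ ≠ (c * t - (b - t) * s) / (c - (b - t)) := by
    intro τ hτ
    have := hbad τ hτ
    simp only [Finset.mem_union, Finset.mem_insert, Finset.mem_singleton, Finset.mem_image,
      not_or, not_exists, not_and] at this
    exact ⟨this.1.1.1, this.1.1.2, this.1.2, fun b hb h => this.2 b hb h.symm⟩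
  have hr : ∀ τ ∈ T, Fam.rt t s c τ ∉ bad := by
    intro τ hτ hb
    obtain ⟨h1, h2, h3, h4⟩ := hT τ hτ
    apply h4 _ hb
    have e1 := sub_ne_zero.mpr h2
    have e2 : Fam.rt t s c τ - t = c * (τ - t) / (τ - s) := by unfold Fam.rt; ring
    rw [e2]
    have e3 : c - c * (τ - t) / (τ - s) = c * (t - s) / (τ - s) := by
      field_simp; ring
    have e4 : t - s ≠ 0 := sub_ne_zero.mpr hts
    rw [e3]
    field_simp
    ring
  refine ⟨fun F => F.S t + ∑ τ ∈ T, w τ * (F.S τ + F.S (Fam.rt t s c τ)), ?_, fun F => ?_⟩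
  · refine ((combS ht).plus (Comb.sum (b := 2) T w hw
      (fun τ F => F.S τ + F.S (Fam.rt t s c τ)) (fun τ hτ => ?_))).congr
      (by rw [hsum]; ring) (fun _ => rfl)
    exact ((combS (hT τ hτ).2.2.1).plus (combS (hr τ hτ))).congr (by norm_num) (fun _ => rfl)
  · have h1 := F.ineq_III hAK hsum (t := t) (s := s) (c := c) hc
      (fun h => (hT t h).1 rfl) (fun h => (hT s h).2.1 rfl)
    have h2 := Finset.sum_le_sum (fun τ hτ =>
      mul_le_mul_of_nonneg_left (F.ineq_IV t τ (Fam.rt t s c τ)) (hw τ hτ))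
    dsimp only
    linarith

/-- Upper bound for `y`, with slices outside a prescribed set. -/
theorem upY {a : ℝ} (hgood : Good a) (ha : 1 ≤ a) (bad : Finset ℚ) {tp tq c : ℚ}
    (hp : tp ∉ bad) (hq : tq ∉ bad) (hpq : tp ≠ tq) (hc : c ≠ 0) :
    ∃ Φ, Comb (SG bad) (3 * a ^ 2 + 2 * a - 2) Φ ∧
      ∀ F : Fam, (5 * a - 3) * F.L + (a - 1) ^ 2 * F.y tp tq c ≤ Φ F := by
  classical
  obtain ⟨T, w, hw, hbad, hsum, hAK⟩ := hgood.avoid ({tq} ∪ bad)
  have hT : ∀ τ ∈ T, τ ≠ tq ∧ τ ∉ bad := by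
    intro τ hτ
    have := hbad τ hτ
    simp only [Finset.mem_union, Finset.mem_singleton, not_or] at this
    exact this
  have hX : ∀ τ : {τ // τ ∈ T}, ∃ Φ, Comb (SG bad) (2 * a + 1) Φ ∧
      ∀ F : Fam, 2 * F.L + (a - 1) * F.x tp tq (-(τ.1 - tq) / c) ≤ Φ F := by
    rintro ⟨τ, hτ⟩
    refine upX hgood bad hp hpq ?_
    have h1 := sub_ne_zero.mpr (hT τ hτ).1
    exact div_ne_zero (neg_ne_zero.mpr h1) hc
  choose Φx hΦ1 hΦ2 using hX
  let Φy : ℚ → Fam → ℝ := fun τ => if h : τ ∈ T then Φx ⟨τ, h⟩ else fun _ => 0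
  have hy : ∀ τ (h : τ ∈ T), Φy τ = Φx ⟨τ, h⟩ := by
    intro τ h
    simp only [Φy, dif_pos h]
  refine ⟨fun F => (a - 1) * (∑ τ ∈ T, w τ * F.S τ) + (∑ τ ∈ T, w τ * Φy τ F) +
    (a - 1) * (F.S tp + F.S tq), ?_, fun F => ?_⟩
  · refine ((((Comb.sum (b := 1) T w hw (fun τ F => F.S τ)
      (fun τ hτ => combS (hT τ hτ).2)).smul (sub_nonneg.mpr ha)).plus
      (Comb.sum (b := 2 * a + 1) T w hw Φy (fun τ hτ => ?_))).plus
      (((combS hp).plus (combS hq)).smul (sub_nonneg.mpr ha))).congr ?_ (fun _ => rfl)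
    · rw [hy τ hτ]; exact hΦ1 ⟨τ, hτ⟩
    · rw [hsum]; ring
  · have h1 := F.ineq_y hAK hw hsum (tp := tp) (tq := tq) (c := c) hpq hc
      (fun h => (hT tq h).1 rfl)
    have h2 : ∑ τ ∈ T, w τ * (2 * F.L + (a - 1) * F.x tp tq (-(τ - tq) / c)) ≤
        ∑ τ ∈ T, w τ * Φy τ F := by
      refine Finset.sum_le_sum (fun τ hτ => mul_le_mul_of_nonneg_left ?_ (hw τ hτ))
      rw [hy τ hτ]
      exact hΦ2 ⟨τ, hτ⟩ F
    have h3 : ∑ τ ∈ T, w τ * (2 * F.L + (a - 1) * F.x tp tq (-(τ - tq) / c)) =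
        a * (2 * F.L) + (a - 1) * ∑ τ ∈ T, w τ * F.x tp tq (-(τ - tq) / c) := by
      simp only [mul_add, Finset.sum_add_distrib]
      rw [← Finset.sum_mul, hsum, Finset.mul_sum]
      congr 1
      exact Finset.sum_congr rfl (fun τ _ => by ring)
    rw [h3] at h2
    have h4 : ∑ τ ∈ T, w τ * (F.S τ + F.x tp tq (-(τ - tq) / c)) =
        (∑ τ ∈ T, w τ * F.S τ) + ∑ τ ∈ T, w τ * F.x tp tq (-(τ - tq) / c) := by
      rw [← Finset.sum_add_distrib]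
      exact Finset.sum_congr rfl (fun τ _ => by ring)
    rw [h4] at h1
    have h5 := mul_le_mul_of_nonneg_left h1 (sub_nonneg.mpr ha)
    dsimp only
    nlinarith

end Pool.Agent.H49.Ent
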