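import Mathlib
import Pool.Agent.H49.Final3

/-!
Variant of the final step: the new line is attached to the partner of `w₂` and the mask is
the functional `X` of the pair `(w₀, w₁)`.
-/

namespace Pool.Agent.H49.Ent

open Finset Real
open scoped BigOperators

namespace Fam

variable (F : Fam)

/-- entropy of `Y = pt tr w₂ + c g(w₁)` given the context -/
noncomputable def yf (tp tq tr c : ℚ) : ℝ :=
  H (F.three tp tq) (fun w => (F.Yf tr c w, F.Z w.1.1)) - F.zH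

/-- values attached to the glueing point on the configuration side -/
def Zub (t c : ℚ) (w : ((F.Ω × F.Ω) × (F.Ω × F.Ω)) × (F.Ω × F.Ω)) : ℚ × F.ζ :=
  (F.pt (t + c) w.2.2, F.Z w.2.2)

theorem law_Zub (t s c tp tq : ℚ) (z : ℚ × F.ζ) :
    law ((F.inner t s c).three tp tq) (F.Zub t c) z = law F.p (F.Zl t c) z := by
  have h1 := law_glue_snd (p₁ := (F.inner t s c).two tp) (p₂ := (F.inner t s c).p)
    (F.inner t s c).hp ((F.inner t s c).law_eq_three tp tq)
    (fun w : F.Ω × F.Ω => ((F.pt (t + c) w.2, F.Z w.2) : ℚ × F.ζ)) z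
  have h3 := F.law_two_snd t (fun ω => ((F.pt (t + c) ω, F.Z ω) : ℚ × F.ζ)) z
  exact h1.trans h3

theorem H_Zub (t s c tp tq : ℚ) :
    H ((F.inner t s c).three tp tq) (F.Zub t c) = F.S (t + c) + F.zH := by
  have h1 := (F.inner t s c).H_three_snd tp tq
    (fun w : F.Ω × F.Ω => ((F.pt (t + c) w.2, F.Z w.2) : ℚ × F.ζ))
  have h3 := F.H_two_snd t (fun ω => ((F.pt (t + c) ω, F.Z ω) : ℚ × F.ζ))
  have h4 : H F.p (fun ω => (F.pt (t + c) ω, F.Z ω)) = F.S (t + c) + F.zH := by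
    unfold S; ring
  rw [← h4]
  exact h1.trans h3

/-- the law of the large configuration -/
noncomputable def bigb (t s c tp tq : ℚ) :
    (((F.Ω × F.Ω) × (F.Ω × F.Ω)) × (F.Ω × F.Ω)) × F.Ω → ℝ :=
  glue ((F.inner t s c).three tp tq) F.p (F.Zub t c) (F.Zl t c)

theorem bigb_nonneg (t s c tp tq : ℚ)
    (v : (((F.Ω × F.Ω) × (F.Ω × F.Ω)) × (F.Ω × F.Ω)) × F.Ω) : 0 ≤ F.bigb t s c tp tq v :=
  glue_nonneg ((F.inner t s c).three_nonneg tp tq) F.hp v

/-- what holds on the support of the large configuration -/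
theorem bigb_pos {t s c tp tq : ℚ}
    {v : (((F.Ω × F.Ω) × (F.Ω × F.Ω)) × (F.Ω × F.Ω)) × F.Ω} (h : 0 < F.bigb t s c tp tq v) :
    0 < F.p v.1.2.1 ∧ 0 < F.p v.2 ∧
      -- crossing of `w₂` with its partner
      F.f v.1.2.1 + t * F.g v.1.2.1 = F.f v.1.2.2 + t * F.g v.1.2.2 ∧
      -- the new line passes through `u`
      F.f v.1.2.2 + (t + c) * F.g v.1.2.2 = F.f v.2 + (t + c) * F.g v.2 ∧
      -- equality of the contexts
      F.X s c v.1.1.1 = F.X s c v.1.2 ∧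
      F.Z v.1.1.1.1 = F.Z v.1.2.1 ∧
      F.Z v.1.1.1.1 = F.Z v.2 ∧
      -- crossing of `w₀` with `w₂`
      F.pt tq v.1.1.1.1 = F.pt tq v.1.2.1 := by
  obtain ⟨h1, h2, h3⟩ := (glue_pos_iff ((F.inner t s c).three_nonneg tp tq) F.hp v).mp h
  obtain ⟨a1, a2, a3, a4, a5, a6, a7⟩ := (F.inner t s c).three_pos h1
  have b3 : 0 < F.two t v.1.2 := a3
  obtain ⟨c1, c2, c3, c4⟩ := F.two_pos b3
  have a7' : (F.X s c v.1.1.1, F.Z v.1.1.1.1) = (F.X s c v.1.2, F.Z v.1.2.1) := a7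
  have h3' : (F.pt (t + c) v.1.2.2, F.Z v.1.2.2) = (F.pt (t + c) v.2, F.Z v.2) := h3
  simp only [Prod.mk.injEq] at a7' h3'
  refine ⟨c1, h2, c3, h3'.1, a7'.1, a7'.2, ?_, a5⟩
  rw [a7'.2, c4, h3'.2]

/-- The inequality of the final step, with the mask `X`. -/
theorem ineq_final_b {T : Finset ℚ} {w : ℚ → ℝ} {a : ℝ} (h : AKW T w)
    (hw : ∀ t ∈ T, 0 ≤ w t) (ha : ∑ t ∈ T, w t = a) (ha1 : 1 ≤ a) {t s c tp tq k : ℚ}
    (hts : t ≠ s) (hpq : tp ≠ tq) (hk : k ≠ 0) (hT : t + c ∉ T) :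
    a * (3 * (F.inner t s c).L - (F.inner t s c).S tp - (F.inner t s c).S tq +
        F.L - F.S (t + c)) - (a - 1) * (F.inner t s c).x tp tq k ≤
      ∑ τ ∈ T, w τ * (F.S τ + (F.inner t s c).yf tp tq (tq + (s - t) / (τ - t - c)) k) := by
  have hst : s - t ≠ 0 := sub_ne_zero.mpr (Ne.symm hts)
  set G := F.inner t s c with hG
  -- identities on the support
  have uX : ∀ v : (((F.Ω × F.Ω) × (F.Ω × F.Ω)) × (F.Ω × F.Ω)) × F.Ω,
      0 < F.bigb t s c tp tq v →
      F.f v.2 + (t + c) * F.g v.2 = F.X s c v.1.1.1 - (s - t) * F.g v.1.2.1 := by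
    intro v hv
    obtain ⟨_, _, c3, c4, c5, _, _, _⟩ := F.bigb_pos hv
    rw [c5, ← c4]
    unfold X pt
    linear_combination -c3
  -- the joint entropy
  have hJ : H (F.bigb t s c tp tq) (fun v => (F.g v.1.1.2.1, F.g v.1.2.1, F.g v.2,
      (F.X s c v.1.1.1, F.Z v.1.1.1.1))) =
      3 * G.L - G.S tp - G.S tq + F.L - F.S (t + c) + G.zH := by
    have h1 := H_glue_pair (p₁ := G.three tp tq) (p₂ := F.p) (Z₁ := F.Zub t c) (Z₂ := F.Zl t c)
      (G.three_nonneg tp tq) F.hp (F.law_Zub t s c tp tq)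
      (X := fun w => (G.g w.1.2, G.g w.2, G.Z w.1.1)) (Y := fun ω => (F.g ω, F.Z ω)) ?_ ?_
    · rw [G.H_three_12 hpq, F.H_Zub] at h1
      have h2 : H F.p (fun ω => (F.g ω, F.Z ω)) = F.L + F.zH := by unfold L; ring
      rw [h2] at h1
      have h3 : H (F.bigb t s c tp tq) (fun v => (F.g v.1.1.2.1, F.g v.1.2.1, F.g v.2,
          (F.X s c v.1.1.1, F.Z v.1.1.1.1))) =
          H (glue (G.three tp tq) F.p (F.Zub t c) (F.Zl t c))
            (fun v => ((G.g v.1.1.2, G.g v.1.2, G.Z v.1.1.1), (F.g v.2, F.Z v.2))) := by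
        refine H_congr (F.bigb_nonneg t s c tp tq) ?_ ?_
        · intro v v' hv hv' hh
          have hh1 : ((F.g v.1.1.2.1, F.g v.1.2.1, (F.X s c v.1.1.1, F.Z v.1.1.1.1)),
              (F.g v.2, F.Z v.2)) = ((F.g v'.1.1.2.1, F.g v'.1.2.1,
              (F.X s c v'.1.1.1, F.Z v'.1.1.1.1)), (F.g v'.2, F.Z v'.2)) := hh
          simp only [Prod.mk.injEq] at hh1 ⊢
          exact ⟨hh1.1.1, hh1.1.2.1, hh1.2.1, hh1.1.2.2⟩
        · intro v v' hv hv' hh
          obtain ⟨_, _, _, _, _, _, z1, _⟩ := F.bigb_pos hv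
          obtain ⟨_, _, _, _, _, _, z2, _⟩ := F.bigb_pos hv'
          simp only [Prod.mk.injEq] at hh
          have hh1 : ((F.g v.1.1.2.1, F.g v.1.2.1, (F.X s c v.1.1.1, F.Z v.1.1.1.1)),
              (F.g v.2, F.Z v.2)) = ((F.g v'.1.1.2.1, F.g v'.1.2.1,
              (F.X s c v'.1.1.1, F.Z v'.1.1.1.1)), (F.g v'.2, F.Z v'.2)) := by
            simp only [Prod.mk.injEq]
            exact ⟨⟨hh.1, hh.2.1, hh.2.2.2⟩, hh.2.2.1, by rw [← z1, ← z2, hh.2.2.2.2]⟩
          exact hh1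
      rw [h3, h1]
      ring
    · intro v v' hv hv' hh
      obtain ⟨a1, a2, a3, a4, a5, a6, a7⟩ := G.three_pos hv
      obtain ⟨b1, b2, b3, b4, b5, b6, b7⟩ := G.three_pos hv'
      have a3' : 0 < F.two t v.2 := a3
      have b3' : 0 < F.two t v'.2 := b3
      obtain ⟨c1, c2, c3, c4⟩ := F.two_pos a3'
      obtain ⟨d1, d2, d3, d4⟩ := F.two_pos b3'
      have a7' : (F.X s c v.1.1, F.Z v.1.1.1) = (F.X s c v.2, F.Z v.2.1) := a7
      have b7' : (F.X s c v'.1.1, F.Z v'.1.1.1) = (F.X s c v'.2, F.Z v'.2.1) := b7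
      have hh' : (F.g v.1.2.1, F.g v.2.1, (F.X s c v.1.1, F.Z v.1.1.1)) =
        (F.g v'.1.2.1, F.g v'.2.1, (F.X s c v'.1.1, F.Z v'.1.1.1)) := hh
      simp only [Prod.mk.injEq] at a7' b7' hh'
      show (F.pt (t + c) v.2.2, F.Z v.2.2) = (F.pt (t + c) v'.2.2, F.Z v'.2.2)
      simp only [Prod.mk.injEq]
      refine ⟨?_, by rw [← c4, ← d4, ← a7'.2, ← b7'.2, hh'.2.2.2]⟩
      have e1 : F.X s c v.2 = F.X s c v'.2 := by
        rw [← a7'.1, ← b7'.1, hh'.2.2.1]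
      unfold X pt at e1
      unfold pt
      have e2 := hh'.2.1
      rw [e2] at c3 e1
      linear_combination e1 - c3 + d3
    · intro ω ω' hω hω' hh
      simp only [Prod.mk.injEq] at hh
      show (F.pt (t + c) ω, F.Z ω) = (F.pt (t + c) ω', F.Z ω')
      simp only [Prod.mk.injEq, pt]
      exact ⟨by rw [F.det_line hω hω' hh.1 hh.2, hh.1], hh.2⟩
  -- marginals of the configuration
  have hZ' : H (F.bigb t s c tp tq) (fun v => (F.X s c v.1.1.1, F.Z v.1.1.1.1)) = G.zH := by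
    have h1 := H_glue_fst (p₁ := G.three tp tq) (p₂ := F.p) (Z₁ := F.Zub t c) (Z₂ := F.Zl t c)
      (G.three_nonneg tp tq) (F.law_Zub t s c tp tq)
      (fun w => (F.X s c w.1.1, F.Z w.1.1.1))
    have h2 := G.H_three_fst tp tq (fun w : (F.Ω × F.Ω) × (F.Ω × F.Ω) =>
      (F.X s c w.1, F.Z w.1.1))
    have h3 := G.H_two_Z tp
    exact h1.trans (h2.trans h3)
  have hV : H (F.bigb t s c tp tq) (fun v => (F.pt tq v.1.1.1.1 + k * F.g v.1.1.2.1,
      (F.X s c v.1.1.1, F.Z v.1.1.1.1))) = G.x tp tq k + G.zH := by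
    have h1 := H_glue_fst (p₁ := G.three tp tq) (p₂ := F.p) (Z₁ := F.Zub t c) (Z₂ := F.Zl t c)
      (G.three_nonneg tp tq) (F.law_Zub t s c tp tq)
      (fun w => (G.X tq k w.1, G.Z w.1.1))
    have h2 := G.H_three_fst tp tq (fun w => (G.X tq k w, G.Z w.1))
    have h3 : H (G.two tp) (fun w => (G.X tq k w, G.Z w.1)) = G.x tp tq k + G.zH := by
      unfold x; ring
    rw [← h3]
    exact h1.trans h2
  -- the slope inequality for the new line
  have e1 := h.ineq ha (F.bigb_nonneg t s c tp tq) (fun v => F.f v.2) (fun v => F.g v.2)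
    (fun v => (F.g v.2 + (F.pt tq v.1.1.1.1 + k * F.g v.1.1.2.1),
      (F.X s c v.1.1.1, F.Z v.1.1.1.1)))
  have e2 : H (F.bigb t s c tp tq) (fun v => (F.g v.2,
      F.g v.2 + (F.pt tq v.1.1.1.1 + k * F.g v.1.1.2.1),
      (F.X s c v.1.1.1, F.Z v.1.1.1.1))) =
      3 * G.L - G.S tp - G.S tq + F.L - F.S (t + c) + G.zH := by
    rw [← hJ]
    refine H_congr (F.bigb_nonneg t s c tp tq) ?_ ?_
    · intro v v' hv hv' hh
      obtain ⟨p1, _, _, _, _, z1, _, q1⟩ := F.bigb_pos hv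
      obtain ⟨p2, _, _, _, _, z2, _, q2⟩ := F.bigb_pos hv'
      simp only [Prod.mk.injEq] at hh ⊢
      refine ⟨hh.2.2.1, ?_, hh.2.2.2⟩
      have k1 : F.f v.1.2.1 = F.f v'.1.2.1 :=
        F.det_line p1 p2 hh.2.1 (by rw [← z1, ← z2, hh.2.2.2.2])
      rw [q1, q2]
      unfold pt
      rw [k1, hh.2.1, hh.1, hh.2.2.1]
    · intro v v' hv hv' hh
      have u1 := uX v hv
      have u2 := uX v' hv'
      obtain ⟨p1, r1, _, _, _, y1, z1, q1⟩ := F.bigb_pos hv
      obtain ⟨p2, r2, _, _, _, y2, z2, q2⟩ := F.bigb_pos hv'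
      simp only [Prod.mk.injEq] at hh ⊢
      have k1 : F.f v.2 = F.f v'.2 :=
        F.det_line r1 r2 hh.1 (by rw [← z1, ← z2, hh.2.2.2])
      have k2 : F.g v.1.2.1 = F.g v'.1.2.1 := by
        rw [k1, hh.1, hh.2.2.1] at u1
        have : (s - t) * F.g v.1.2.1 = (s - t) * F.g v'.1.2.1 := by linarith
        exact mul_left_cancel₀ hst this
      have k3 : F.f v.1.2.1 = F.f v'.1.2.1 :=
        F.det_line p1 p2 k2 (by rw [← y1, ← y2, hh.2.2.2])
      refine ⟨?_, k2, hh.1, hh.2.2⟩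
      have k4 := hh.2.1
      rw [hh.1, q1, q2] at k4
      unfold pt at k4
      rw [k3, k2] at k4
      have k5 : k * F.g v.1.1.2.1 = k * F.g v'.1.1.2.1 := by linarith
      exact mul_left_cancel₀ hk k5
  have e3 : 3 * G.L - G.S tp - G.S tq + F.L - F.S (t + c) + G.zH - G.x tp tq k ≤
      H (F.bigb t s c tp tq) (fun v => (F.g v.2 + (F.pt tq v.1.1.1.1 + k * F.g v.1.1.2.1),
        (F.X s c v.1.1.1, F.Z v.1.1.1.1))) := by
    have k1 := submod (F.bigb_nonneg t s c tp tq)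
      (X := fun v => (F.g v.2 + (F.pt tq v.1.1.1.1 + k * F.g v.1.1.2.1),
        (F.X s c v.1.1.1, F.Z v.1.1.1.1)))
      (Y := fun v => (F.pt tq v.1.1.1.1 + k * F.g v.1.1.2.1,
        (F.X s c v.1.1.1, F.Z v.1.1.1.1)))
      (Z := fun v => (F.X s c v.1.1.1, F.Z v.1.1.1.1))
      (W := fun v => (F.g v.2, F.g v.2 + (F.pt tq v.1.1.1.1 + k * F.g v.1.1.2.1),
        (F.X s c v.1.1.1, F.Z v.1.1.1.1)))
      ?_ ?_ ?_
    · rw [e2, hZ', hV] at k1
      linarith
    · intro v v' _ _ hh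
      simp only [Prod.mk.injEq] at hh ⊢
      exact hh.2
    · intro v v' _ _ hh
      simp only [Prod.mk.injEq] at hh ⊢
      exact hh.2
    · intro v v' _ _ hh
      simp only [Prod.mk.injEq] at hh ⊢
      refine ⟨?_, hh.1.1, hh.1.2⟩
      have := hh.1.1
      rw [hh.2.1] at this
      exact add_right_cancel this
  have e4 : ∀ τ ∈ T, H (F.bigb t s c tp tq) (fun v => (F.f v.2 + τ * F.g v.2,
      F.g v.2 + (F.pt tq v.1.1.1.1 + k * F.g v.1.1.2.1),
      (F.X s c v.1.1.1, F.Z v.1.1.1.1))) ≤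
      F.S τ + G.yf tp tq (tq + (s - t) / (τ - t - c)) k + G.zH := by
    intro τ hτ
    have n1 : τ - t - c ≠ 0 := by
      intro h0
      apply hT
      have : τ = t + c := by linarith
      rw [← this]; exact hτ
    have k1 := submod (F.bigb_nonneg t s c tp tq)
      (X := fun v => (F.pt τ v.2, F.Z v.2))
      (Y := fun v => (F.pt (tq + (s - t) / (τ - t - c)) v.1.2.1 + k * F.g v.1.1.2.1,
        (F.X s c v.1.1.1, F.Z v.1.1.1.1)))
      (Z := fun v => F.Z v.1.1.1.1)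
      (W := fun v => (F.f v.2 + τ * F.g v.2,
        F.g v.2 + (F.pt tq v.1.1.1.1 + k * F.g v.1.1.2.1),
        (F.X s c v.1.1.1, F.Z v.1.1.1.1))) ?_ ?_ ?_
    · have m1 : H (F.bigb t s c tp tq) (fun v => (F.pt τ v.2, F.Z v.2)) = F.S τ + F.zH := by
        have := H_glue_snd (p₁ := G.three tp tq) (p₂ := F.p) (Z₁ := F.Zub t c)
          (Z₂ := F.Zl t c) F.hp (F.law_Zub t s c tp tq) (fun ω => (F.pt τ ω, F.Z ω))
        have e : H F.p (fun ω => (F.pt τ ω, F.Z ω)) = F.S τ + F.zH := by unfold S; ring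
        rw [← e]
        exact this
      have m2 : H (F.bigb t s c tp tq) (fun v =>
          (F.pt (tq + (s - t) / (τ - t - c)) v.1.2.1 + k * F.g v.1.1.2.1,
          (F.X s c v.1.1.1, F.Z v.1.1.1.1))) =
          G.yf tp tq (tq + (s - t) / (τ - t - c)) k + G.zH := by
        have := H_glue_fst (p₁ := G.three tp tq) (p₂ := F.p) (Z₁ := F.Zub t c)
          (Z₂ := F.Zl t c) (G.three_nonneg tp tq) (F.law_Zub t s c tp tq)
          (fun w => (G.Yf (tq + (s - t) / (τ - t - c)) k w, G.Z w.1.1))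
        have e : H (G.three tp tq) (fun w => (G.Yf (tq + (s - t) / (τ - t - c)) k w,
          G.Z w.1.1)) = G.yf tp tq (tq + (s - t) / (τ - t - c)) k + G.zH := by
          unfold yf; ring
        rw [← e]
        exact this
      have m3 : H (F.bigb t s c tp tq) (fun v => F.Z v.1.1.1.1) = F.zH := by
        have h1 := H_glue_fst (p₁ := G.three tp tq) (p₂ := F.p) (Z₁ := F.Zub t c)
          (Z₂ := F.Zl t c) (G.three_nonneg tp tq) (F.law_Zub t s c tp tq)
          (fun w => F.Z w.1.1.1)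
        have h2 := G.H_three_fst tp tq (fun w : (F.Ω × F.Ω) × (F.Ω × F.Ω) => F.Z w.1.1)
        have h3 := G.H_two_fst tp (fun w : F.Ω × F.Ω => F.Z w.1)
        have h4 := F.H_two_Z t
        exact h1.trans (h2.trans (h3.trans h4))
      rw [m1, m2, m3] at k1
      linarith
    · intro v v' hv hv' hh
      obtain ⟨_, _, _, _, _, _, z1, _⟩ := F.bigb_pos hv
      obtain ⟨_, _, _, _, _, _, z2, _⟩ := F.bigb_pos hv'
      simp only [Prod.mk.injEq] at hh
      show F.Z v.1.1.1.1 = F.Z v'.1.1.1.1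
      rw [z1, z2, hh.2]
    · intro v v' _ _ hh
      simp only [Prod.mk.injEq] at hh
      exact hh.2.2
    · intro v v' hv hv' hh
      have u1 := uX v hv
      have u2 := uX v' hv'
      obtain ⟨_, _, _, _, _, _, _, q1⟩ := F.bigb_pos hv
      obtain ⟨_, _, _, _, _, _, _, q2⟩ := F.bigb_pos hv'
      simp only [Prod.mk.injEq] at hh ⊢
      have key : ∀ v : (((F.Ω × F.Ω) × (F.Ω × F.Ω)) × (F.Ω × F.Ω)) × F.Ω,
          F.f v.2 + (t + c) * F.g v.2 = F.X s c v.1.1.1 - (s - t) * F.g v.1.2.1 →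
          F.pt tq v.1.1.1.1 = F.pt tq v.1.2.1 →
          (τ - t - c) * (F.g v.2 + (F.pt tq v.1.1.1.1 + k * F.g v.1.1.2.1)) =
            F.pt τ v.2 - F.X s c v.1.1.1 +
            (τ - t - c) * (F.pt (tq + (s - t) / (τ - t - c)) v.1.2.1
              + k * F.g v.1.1.2.1) := by
        intro v hv5 hv6
        rw [hv6]
        unfold pt
        field_simp
        linear_combination -hv5
      refine ⟨hh.1.1, ?_, hh.2.2⟩
      have k1 := key v u1 q1
      have k2 := key v' u2 q2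
      rw [hh.1.1, hh.2.1, hh.2.2.1, ← k2] at k1
      exact mul_left_cancel₀ n1 k1
  rw [e2] at e1
  have h3 := Finset.sum_le_sum (fun τ hτ => mul_le_mul_of_nonneg_left (e4 τ hτ) (hw τ hτ))
  have h4 : ∑ τ ∈ T, w τ * (F.S τ + G.yf tp tq (tq + (s - t) / (τ - t - c)) k + G.zH) =
      ∑ τ ∈ T, w τ * (F.S τ + G.yf tp tq (tq + (s - t) / (τ - t - c)) k) + a * G.zH := by
    simp only [mul_add, Finset.sum_add_distrib]
    rw [← Finset.sum_mul, ha]
  rw [h4] at h3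
  have h5 := mul_le_mul_of_nonneg_left e3 (sub_nonneg.mpr ha1)
  linarith

end Fam

end Pool.Agent.H49.Ent
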