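import Mathlib
import Pool.Agent.H49.Final3

/-!
Assembly: the improvement step `Good a → Good (F a)`.
-/

namespace Pool.Agent.H49.Ent

open Finset Real
open scoped BigOperators

/-- Transfer of combinations of slice entropies of the inner family to the outer family. -/
theorem transfer {t s c : ℚ} {B : ℝ} {Φ : Fam → ℝ} (h : Comb (SG {t, s}) B Φ) :
    ∃ Φ', Comb (SG ∅) (2 * B) Φ' ∧
      ∀ F : Fam, Φ (F.inner t s c) + B * F.x t s c ≤ Φ' F := by
  induction h with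
  | zero => exact ⟨fun _ => 0, Comb.zero.congr (by ring) (fun _ => rfl), fun F => by simp⟩
  | add d hd φ hφ _ ih =>
    obtain ⟨Φ', h1, h2⟩ := ih
    obtain ⟨τ, hτ, rfl⟩ := hφ
    simp only [Finset.mem_insert, Finset.mem_singleton, not_or] at hτ
    refine ⟨fun F => Φ' F + d * (F.S τ + F.S (Fam.rt t s c τ)),
      (h1.plus (((combS0 τ).plus (combS0 _)).smul hd)).congr (by ring) (fun _ => rfl),
      fun F => ?_⟩
    have e1 := h2 F
    have e2 := F.inner_S (c := c) hτ.1 hτ.2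
    have e3 := mul_le_mul_of_nonneg_left (F.ineq_IV t τ (Fam.rt t s c τ)) hd
    dsimp only
    rw [e2]
    nlinarith

/-- The new upper bound for `x`, for a generator. -/
theorem newX {a : ℝ} (hgood : Good a) (ha : 1 ≤ a) {φ : Fam → ℝ} (hφ : φ ∈ XG) :
    ∃ Φ₁ Φ₂, Comb (SG ∅) (2 * a * (a - 1) ^ 2 + 2 * (5 * a ^ 3 - 2 * a ^ 2) +
        (2 * a ^ 3 + 2 * a ^ 2 - 3 * a + 1)) Φ₁ ∧ Comb (SG ∅) 0 Φ₂ ∧
      ∀ F : Fam, (2 * (2 * a ^ 3 + 2 * a ^ 2 - 3 * a + 1) + a * (a - 1) ^ 2) * F.L +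
        (3 * a ^ 3 - 4 * a ^ 2 + 3 * a - 1) * φ F ≤ Φ₁ F + Φ₂ F := by
  classical
  obtain ⟨t, s, c, hts, hc, rfl⟩ := hφ
  obtain ⟨T, w, hw, hbad, hsum, hAK⟩ := hgood.avoid {t + c}
  have hT : t + c ∉ T := fun h => hbad _ h (Finset.mem_singleton_self _)
  -- inner crossing times
  obtain ⟨tp, htp⟩ := Infinite.exists_notMem_finset ({t, s} : Finset ℚ)
  obtain ⟨tq, htq⟩ := Infinite.exists_notMem_finset ({t, s, tp} : Finset ℚ)
  have hq : tq ∉ ({t, s} : Finset ℚ) := by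
    intro h
    apply htq
    simp only [Finset.mem_insert, Finset.mem_singleton] at h ⊢
    tauto
  have hpq : tp ≠ tq := by
    intro h
    apply htq
    simp [h]
  have hst : s - t ≠ 0 := sub_ne_zero.mpr (Ne.symm hts)
  have hY : ∀ τ : {τ // τ ∈ T}, ∃ Φ, Comb (SG {t, s}) (3 * a ^ 2 + 2 * a - 2) Φ ∧
      ∀ F : Fam, (5 * a - 3) * F.L + (a - 1) ^ 2 * F.y tp tq ((τ.1 - t - c) / (s - t)) ≤
        Φ F := by
    rintro ⟨τ, hτ⟩
    refine upY hgood ha {t, s} htp hq hpq ?_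
    refine div_ne_zero ?_ hst
    intro h0
    apply hT
    have : τ = t + c := by linarith
    rw [← this]; exact hτ
  choose Φx hΦ1 hΦ2 using hY
  let Φy : ℚ → Fam → ℝ := fun τ => if h : τ ∈ T then Φx ⟨τ, h⟩ else fun _ => 0
  have hy : ∀ τ (h : τ ∈ T), Φy τ = Φx ⟨τ, h⟩ := by
    intro τ h
    simp only [Φy, dif_pos h]
  have hin : Comb (SG {t, s}) (5 * a ^ 3 - 2 * a ^ 2)
      (fun F => (∑ τ ∈ T, w τ * Φy τ F) + a * (a - 1) ^ 2 * (F.S tp + F.S tq)) := by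
    refine ((Comb.sum (b := 3 * a ^ 2 + 2 * a - 2) T w hw Φy (fun τ hτ => ?_)).plus
      (((combS htp).plus (combS hq)).smul
        (mul_nonneg (by linarith) (sq_nonneg (a - 1))))).congr ?_ (fun _ => rfl)
    · rw [hy τ hτ]; exact hΦ1 ⟨τ, hτ⟩
    · rw [hsum]; ring
  obtain ⟨Φ', hΦ', hle⟩ := transfer (c := c) hin
  refine ⟨fun F => ((a - 1) ^ 2 * ((∑ τ ∈ T, w τ * F.S τ) + a * F.S (t + c)) + Φ' F) +
    (2 * a ^ 3 + 2 * a ^ 2 - 3 * a + 1) * F.S t, fun _ => 0, ?_, Comb.zero, fun F => ?_⟩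
  · have hC1 : 0 ≤ 2 * a ^ 3 + 2 * a ^ 2 - 3 * a + 1 := by nlinarith [sq_nonneg (a - 1)]
    refine ((((Comb.sum (b := 1) T w hw (fun τ F => F.S τ) (fun τ _ => combS0 τ)).plus
      ((combS0 (t + c)).smul (by linarith : 0 ≤ a))).smul (sq_nonneg (a - 1))).plus
      hΦ').plus ((combS0 t).smul hC1) |>.congr ?_ (fun _ => rfl)
    rw [hsum]; ring
  · have h1 := F.ineq_final hAK hw hsum ha (t := t) (s := s) (c := c) (tp := tp) (tq := tq)
      hts hpq hT
    have h2 : ∑ τ ∈ T, w τ * ((5 * a - 3) * (F.inner t s c).L +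
        (a - 1) ^ 2 * (F.inner t s c).y tp tq ((τ - t - c) / (s - t))) ≤
        ∑ τ ∈ T, w τ * Φy τ (F.inner t s c) := by
      refine Finset.sum_le_sum (fun τ hτ => mul_le_mul_of_nonneg_left ?_ (hw τ hτ))
      rw [hy τ hτ]
      exact hΦ2 ⟨τ, hτ⟩ _
    have h3 : ∑ τ ∈ T, w τ * ((5 * a - 3) * (F.inner t s c).L +
        (a - 1) ^ 2 * (F.inner t s c).y tp tq ((τ - t - c) / (s - t))) =
        a * ((5 * a - 3) * (F.inner t s c).L) +
        (a - 1) ^ 2 * ∑ τ ∈ T, w τ * (F.inner t s c).y tp tq ((τ - t - c) / (s - t)) := by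
      simp only [mul_add, Finset.sum_add_distrib]
      rw [← Finset.sum_mul, hsum, Finset.mul_sum]
      congr 1
      exact Finset.sum_congr rfl (fun τ _ => by ring)
    rw [h3] at h2
    have h4 : ∑ τ ∈ T, w τ * (F.S τ + (F.inner t s c).y tp tq ((τ - t - c) / (s - t))) =
        (∑ τ ∈ T, w τ * F.S τ) +
          ∑ τ ∈ T, w τ * (F.inner t s c).y tp tq ((τ - t - c) / (s - t)) := by
      rw [← Finset.sum_add_distrib]
      exact Finset.sum_congr rfl (fun τ _ => by ring)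
    rw [h4] at h1
    have h5 := mul_le_mul_of_nonneg_left h1 (sq_nonneg (a - 1))
    have h6 := hle F
    have h7 := F.inner_L (t := t) (s := s) (c := c) hc
    dsimp only at h6 ⊢
    have h8 : (2 * a ^ 3 + 2 * a ^ 2 - 3 * a + 1) * (F.inner t s c).L =
      (2 * a ^ 3 + 2 * a ^ 2 - 3 * a + 1) * (2 * F.L - F.S t - F.x t s c) := by rw [h7]
    nlinarith [h2, h5, h6, h8]

/-- Collecting a combination of slice entropies. -/
theorem Comb.collect {B : ℝ} {Φ : Fam → ℝ} (h : Comb (SG ∅) B Φ) :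
    ∃ (T : Finset ℚ) (w : ℚ → ℝ), (∀ t ∈ T, 0 ≤ w t) ∧ ∑ t ∈ T, w t = B ∧
      ∀ F : Fam, Φ F = ∑ t ∈ T, w t * F.S t := by
  classical
  induction h with
  | zero => exact ⟨∅, fun _ => 0, by simp, by simp, fun F => by simp⟩
  | add c hc φ hφ _ ih =>
    obtain ⟨T, w, h1, h2, h3⟩ := ih
    obtain ⟨t, _, rfl⟩ := hφ
    refine ⟨insert t T, fun s => (if s ∈ T then w s else 0) + (if s = t then c else 0),
      ?_, ?_, fun F => ?_⟩
    · intro s _
      refine add_nonneg ?_ ?_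
      · split_ifs with h
        · exact h1 s h
        · exact le_rfl
      · split_ifs
        · exact hc
        · exact le_rfl
    · rw [Finset.sum_add_distrib, Finset.sum_ite_eq' (insert t T) t (fun _ => c),
        if_pos (Finset.mem_insert_self t T), ← h2]
      congr 1
      rw [Finset.sum_ite_mem, Finset.inter_eq_right.mpr (Finset.subset_insert t T)]
    · simp only [add_mul, Finset.sum_add_distrib, ite_mul, zero_mul]
      rw [Finset.sum_ite_eq' (insert t T) t (fun s => c * F.S s),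
        if_pos (Finset.mem_insert_self t T), h3 F]
      congr 1
      rw [Finset.sum_ite_mem, Finset.inter_eq_right.mpr (Finset.subset_insert t T)]

/-- A bound for all families gives a good exponent. -/
theorem good_of_comb {B : ℝ} {Φ : Fam → ℝ} (h : Comb (SG ∅) B Φ)
    (hle : ∀ F : Fam, F.L ≤ Φ F) : Good B := by
  obtain ⟨T, w, h1, h2, h3⟩ := h.collect
  refine ⟨T, w, h1, h2, AKW_of_injective h1 ?_⟩
  intro Ω _ p f g hp hs hinj
  let F : Fam := ⟨Ω, Unit, p, hp, hs, fun _ => (), f, g, fun ω ω' hω hω' hh => by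
    simp only [Prod.mk.injEq] at hh
    rw [hinj ω ω' hω hω' hh.1]⟩
  have e0 : F.zH = 0 := H_const hs ()
  have e1 : F.L = H p g := by
    have : F.L = H p (fun ω => (g ω, ())) - F.zH := rfl
    rw [this, e0, sub_zero]
    exact H_comp_injective hp g (f := fun x => (x, ())) (fun x y h => (Prod.mk.inj h).1)
  have e2 : ∀ t, F.S t = H p (fun ω => f ω + t * g ω) := by
    intro t
    have : F.S t = H p (fun ω => (f ω + t * g ω, ())) - F.zH := rfl
    rw [this, e0, sub_zero]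
    exact H_comp_injective hp (fun ω => f ω + t * g ω) (f := fun x => (x, ()))
      (fun x y h => (Prod.mk.inj h).1)
  have h5 := hle F
  rw [h3 F, e1] at h5
  simpa only [e2] using h5

/-- numerator of the improvement map -/
noncomputable def numF (a ρ : ℝ) : ℝ :=
  2 * a * (a - 1) ^ 2 + 2 * (5 * a ^ 3 - 2 * a ^ 2) + (2 * a ^ 3 + 2 * a ^ 2 - 3 * a + 1) +
    (3 * a ^ 3 - 4 * a ^ 2 + 3 * a - 1) * ((3 * a ^ 2 + a - 1) / (2 * a - 1) * ρ)

/-- denominator of the improvement map -/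
noncomputable def denF (a ρ : ℝ) : ℝ :=
  2 * (2 * a ^ 3 + 2 * a ^ 2 - 3 * a + 1) + a * (a - 1) ^ 2 +
    (3 * a ^ 3 - 4 * a ^ 2 + 3 * a - 1) * ((a ^ 2 + 4 * a - 2) / (2 * a - 1) * ρ)

/-- The improvement step. -/
theorem improve {a : ℝ} (hgood : Good a) (ha : 1 < a) (n : ℕ) :
    Good (numF a (1 - (((a - 1) / a) ^ 2) ^ n) / denF a (1 - (((a - 1) / a) ^ 2) ^ n)) := by
  obtain ⟨Ψ, Φ, h1, h2, h3⟩ := LBX_iter hgood ha n
  obtain ⟨Φ₁, Φ₂, g1, g2, g3⟩ := h1.lift (fun φ hφ => newX hgood ha.le hφ)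
  have hk : 0 ≤ 3 * a ^ 3 - 4 * a ^ 2 + 3 * a - 1 := by
    nlinarith [sq_nonneg (a - 1), mul_nonneg (sub_nonneg.mpr ha.le) (sq_nonneg a)]
  have hρ : 0 ≤ 1 - (((a - 1) / a) ^ 2) ^ n := by
    rw [sub_nonneg]
    refine pow_le_one₀ (sq_nonneg _) ?_
    have h0 : 0 ≤ (a - 1) / a := div_nonneg (by linarith) (by linarith)
    have h01 : (a - 1) / a ≤ 1 := by rw [div_le_one (by linarith)]; linarith
    exact pow_le_one₀ h0 h01
  generalize (1 - (((a - 1) / a) ^ 2) ^ n) = ρ at *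
  have hD : 0 < denF a ρ := by
    unfold denF
    have t1 : 0 < 2 * a ^ 3 + 2 * a ^ 2 - 3 * a + 1 := by nlinarith [sq_nonneg (a - 1)]
    have t2 : 0 ≤ a * (a - 1) ^ 2 := mul_nonneg (by linarith) (sq_nonneg _)
    have t3 : 0 ≤ (a ^ 2 + 4 * a - 2) / (2 * a - 1) :=
      div_nonneg (by nlinarith) (by linarith)
    have := mul_nonneg hk (mul_nonneg t3 hρ)
    linarith
  refine good_of_comb (Φ := fun F => (denF a ρ)⁻¹ * ((Φ₁ F + Φ₂ F) +
    (3 * a ^ 3 - 4 * a ^ 2 + 3 * a - 1) * Φ F)) ?_ (fun F => ?_)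
  · refine (((g1.plus g2).plus (h2.smul hk)).smul (inv_nonneg.mpr hD.le)).congr ?_
      (fun _ => rfl)
    unfold numF
    field_simp
    ring
  · have e1 := g3 F
    have e2 := mul_le_mul_of_nonneg_left (h3 F) hk
    have e3 : denF a ρ * F.L ≤ (Φ₁ F + Φ₂ F) +
        (3 * a ^ 3 - 4 * a ^ 2 + 3 * a - 1) * Φ F := by
      unfold denF
      nlinarith
    have e4 := mul_le_mul_of_nonneg_left e3 (inv_nonneg.mpr hD.le)
    rwa [← mul_assoc, inv_mul_cancel₀ hD.ne', one_mul] at e4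

end Pool.Agent.H49.Ent
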