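import Mathlib
import Pool.Agent.H49.Final3b
import Pool.Agent.H49.Step3

/-!
Assembly of the second version: the improvement step with threshold `1.67377`.
-/

namespace Pool.Agent.H49.Ent

open Finset Real
open scoped BigOperators

/-- Upper bound for the functional `Y`, with slices outside a prescribed set. -/
theorem upYf {a : ℝ} (hgood : Good a) (ha : 1 ≤ a) (bad : Finset ℚ) {tp tq tr c : ℚ}
    (hp : tp ∉ bad) (hq : tq ∉ bad) (hpq : tp ≠ tq) (hc : c ≠ 0) :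
    ∃ Φ, Comb (SG bad) (3 * a ^ 2 + 2 * a - 2) Φ ∧
      ∀ F : Fam, (5 * a - 3) * F.L + (a - 1) ^ 2 * F.yf tp tq tr c ≤ Φ F := by
  classical
  obtain ⟨T, w, hw, hbad, hsum, hAK⟩ := hgood.avoid ({tq, tr} ∪ bad)
  have hT : ∀ τ ∈ T, τ ≠ tq ∧ τ ≠ tr ∧ τ ∉ bad := by
    intro τ hτ
    have := hbad τ hτ
    simp only [Finset.mem_union, Finset.mem_insert, Finset.mem_singleton, not_or] at this
    exact ⟨this.1.1, this.1.2, this.2⟩
  have hX : ∀ τ : {τ // τ ∈ T}, ∃ Φ, Comb (SG bad) (2 * a + 1) Φ ∧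
      ∀ F : Fam, 2 * F.L + (a - 1) * F.x tp tq (c * (τ.1 - tq) / (τ.1 - tr)) ≤ Φ F := by
    rintro ⟨τ, hτ⟩
    refine upX hgood bad hp hpq ?_
    have h1 := sub_ne_zero.mpr (hT τ hτ).1
    have h2 := sub_ne_zero.mpr (hT τ hτ).2.1
    exact div_ne_zero (mul_ne_zero hc h1) h2
  choose Φx hΦ1 hΦ2 using hX
  let Φy : ℚ → Fam → ℝ := fun τ => if h : τ ∈ T then Φx ⟨τ, h⟩ else fun _ => 0
  have hy : ∀ τ (h : τ ∈ T), Φy τ = Φx ⟨τ, h⟩ := by
    intro τ h
    simp only [Φy, dif_pos h]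
  refine ⟨fun F => (a - 1) * (∑ τ ∈ T, w τ * F.S τ) + (∑ τ ∈ T, w τ * Φy τ F) +
    (a - 1) * (F.S tp + F.S tq), ?_, fun F => ?_⟩
  · refine ((((Comb.sum (b := 1) T w hw (fun τ F => F.S τ)
      (fun τ hτ => combS (hT τ hτ).2.2)).smul (sub_nonneg.mpr ha)).plus
      (Comb.sum (b := 2 * a + 1) T w hw Φy (fun τ hτ => ?_))).plus
      (((combS hp).plus (combS hq)).smul (sub_nonneg.mpr ha))).congr ?_ (fun _ => rfl)
    · rw [hy τ hτ]; exact hΦ1 ⟨τ, hτ⟩
    · rw [hsum]; ring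
  · have h1 := F.ineq_I hAK hw hsum (tp := tp) (tq := tq) (tr := tr) (c := c) hpq hc
      (fun h => (hT tq h).1 rfl) (fun h => (hT tr h).2.1 rfl)
    have h0 : H (F.three tp tq) (fun w => (F.Yf tr c w, F.Z w.1.1)) - F.zH =
      F.yf tp tq tr c := rfl
    rw [h0] at h1
    have h2 : ∑ τ ∈ T, w τ * (2 * F.L + (a - 1) * F.x tp tq (c * (τ - tq) / (τ - tr))) ≤
        ∑ τ ∈ T, w τ * Φy τ F := by
      refine Finset.sum_le_sum (fun τ hτ => mul_le_mul_of_nonneg_left ?_ (hw τ hτ))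
      rw [hy τ hτ]
      exact hΦ2 ⟨τ, hτ⟩ F
    have h3 : ∑ τ ∈ T, w τ * (2 * F.L + (a - 1) * F.x tp tq (c * (τ - tq) / (τ - tr))) =
        a * (2 * F.L) + (a - 1) * ∑ τ ∈ T, w τ * F.x tp tq (c * (τ - tq) / (τ - tr)) := by
      simp only [mul_add, Finset.sum_add_distrib]
      rw [← Finset.sum_mul, hsum, Finset.mul_sum]
      congr 1
      exact Finset.sum_congr rfl (fun τ _ => by ring)
    rw [h3] at h2
    have h4 : ∑ τ ∈ T, w τ * (F.S τ + F.x tp tq (c * (τ - tq) / (τ - tr))) =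
        (∑ τ ∈ T, w τ * F.S τ) + ∑ τ ∈ T, w τ * F.x tp tq (c * (τ - tq) / (τ - tr)) := by
      rw [← Finset.sum_add_distrib]
      exact Finset.sum_congr rfl (fun τ _ => by ring)
    rw [h4] at h1
    have h5 := mul_le_mul_of_nonneg_left h1 (sub_nonneg.mpr ha)
    dsimp only
    nlinarith

/-- Transfer of combinations of slice entropies of the inner family, keeping `m`. -/
theorem transferM {t s c : ℚ} (hc : c ≠ 0) {B : ℝ} {Φ : Fam → ℝ}
    (h : Comb (SG {t, s}) B Φ) :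
    ∃ Φ', Comb MG B Φ' ∧
      ∀ F : Fam, Φ (F.inner t s c) + B * F.x t s c ≤ Φ' F := by
  induction h with
  | zero => exact ⟨fun _ => 0, Comb.zero, fun F => by simp⟩
  | add d hd φ hφ _ ih =>
    obtain ⟨Φ', h1, h2⟩ := ih
    obtain ⟨τ, hτ, rfl⟩ := hφ
    simp only [Finset.mem_insert, Finset.mem_singleton, not_or] at hτ
    refine ⟨fun F => Φ' F + d * F.m t τ (Fam.rt t s c τ),
      (h1.plus ((Comb.of_mem (G := MG) (φ := fun F => F.m t τ (Fam.rt t s c τ))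
        ⟨t, τ, _, hτ.1, rt_ne hc hτ.1 hτ.2, rfl⟩).smul hd)).congr
        (by ring) (fun _ => rfl), fun F => ?_⟩
    have e1 := h2 F
    have e2 := F.inner_S (c := c) hτ.1 hτ.2
    dsimp only
    rw [e2]
    nlinarith

/-- the polynomial `C₁` -/
noncomputable def C1 (a : ℝ) : ℝ := 3 * a ^ 3 + a ^ 2 - 4 * a + 2

/-- the polynomial `C₂` -/
noncomputable def C2 (a : ℝ) : ℝ := 7 * a ^ 3 - 5 * a ^ 2 + 1

/-- The new step from `x` to `m`, for a generator. -/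
theorem newXM {a : ℝ} (hgood : Good a) (ha : 1 ≤ a) {φ : Fam → ℝ} (hφ : φ ∈ XG) :
    ∃ Φ₁ Φ₂, Comb (SG ∅) (2 * a * (a - 1) ^ 2 + C1 a) Φ₁ ∧ Comb MG (C2 a) Φ₂ ∧
      ∀ F : Fam, (2 * C1 a + a * (a - 1) ^ 2) * F.L + (C2 a - C1 a) * φ F ≤ Φ₁ F + Φ₂ F := by
  classical
  obtain ⟨t, s, c, hts, hc, rfl⟩ := hφ
  obtain ⟨T, w, hw, hbad, hsum, hAK⟩ := hgood.avoid {t + c}
  have hT : t + c ∉ T := fun h => hbad _ h (Finset.mem_singleton_self _)
  -- inner crossing times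
  obtain ⟨tp, htp⟩ := Infinite.exists_notMem_finset ({t, s} : Finset ℚ)
  obtain ⟨tq, htq⟩ := Infinite.exists_notMem_finset ({t, s, tp} : Finset ℚ)
  have hq : tq ∉ ({t, s} : Finset ℚ) := by
    intro h
    apply htq
    simp only [Finset.mem_insert, Finset.mem_singleton] at h ⊢
    tauto
  have hpq : tp ≠ tq := by
    intro h
    apply htq
    simp [h]
  have hY : ∀ τ : ℚ, ∃ Φ, Comb (SG {t, s}) (3 * a ^ 2 + 2 * a - 2) Φ ∧
      ∀ F : Fam, (5 * a - 3) * F.L +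
        (a - 1) ^ 2 * F.yf tp tq (tq + (s - t) / (τ - t - c)) 1 ≤ Φ F :=
    fun τ => upYf hgood ha {t, s} htp hq hpq one_ne_zero
  choose Φy hΦ1 hΦ2 using hY
  obtain ⟨Φx, hx1, hx2⟩ := upX hgood {t, s} (t := tp) (s := tq) (c := 1) htp hpq one_ne_zero
  have hin : Comb (SG {t, s}) (C2 a)
      (fun F => ((∑ τ ∈ T, w τ * Φy τ F) + a * (a - 1) ^ 2 * (F.S tp + F.S tq)) +
        (a - 1) ^ 2 * Φx F) := by
    refine (((Comb.sum (b := 3 * a ^ 2 + 2 * a - 2) T w hw Φy (fun τ _ => hΦ1 τ)).plus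
      (((combS htp).plus (combS hq)).smul
        (mul_nonneg (by linarith) (sq_nonneg (a - 1))))).plus
      (hx1.smul (sq_nonneg (a - 1)))).congr ?_ (fun _ => rfl)
    rw [hsum]; unfold C2; ring
  obtain ⟨Φ', hΦ', hle⟩ := transferM hc hin
  refine ⟨fun F => (a - 1) ^ 2 * ((∑ τ ∈ T, w τ * F.S τ) + a * F.S (t + c)) +
    C1 a * F.S t, Φ', ?_, hΦ', fun F => ?_⟩
  · have hC1 : 0 ≤ C1 a := by
      unfold C1
      nlinarith [sq_nonneg (a - 1)]
    refine (((Comb.sum (b := 1) T w hw (fun τ F => F.S τ) (fun τ _ => combS0 τ)).plus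
      ((combS0 (t + c)).smul (by linarith : 0 ≤ a))).smul (sq_nonneg (a - 1))).plus
      ((combS0 t).smul hC1) |>.congr ?_ (fun _ => rfl)
    rw [hsum]; ring
  · have h1 := F.ineq_final_b hAK hw hsum ha (t := t) (s := s) (c := c) (tp := tp) (tq := tq)
      (k := 1) hts hpq one_ne_zero hT
    have h2 : ∑ τ ∈ T, w τ * ((5 * a - 3) * (F.inner t s c).L +
        (a - 1) ^ 2 * (F.inner t s c).yf tp tq (tq + (s - t) / (τ - t - c)) 1) ≤
        ∑ τ ∈ T, w τ * Φy τ (F.inner t s c) :=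
      Finset.sum_le_sum (fun τ hτ => mul_le_mul_of_nonneg_left (hΦ2 τ _) (hw τ hτ))
    have h3 : ∑ τ ∈ T, w τ * ((5 * a - 3) * (F.inner t s c).L +
        (a - 1) ^ 2 * (F.inner t s c).yf tp tq (tq + (s - t) / (τ - t - c)) 1) =
        a * ((5 * a - 3) * (F.inner t s c).L) + (a - 1) ^ 2 *
          ∑ τ ∈ T, w τ * (F.inner t s c).yf tp tq (tq + (s - t) / (τ - t - c)) 1 := by
      simp only [mul_add, Finset.sum_add_distrib]
      rw [← Finset.sum_mul, hsum, Finset.mul_sum]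
      congr 1
      exact Finset.sum_congr rfl (fun τ _ => by ring)
    rw [h3] at h2
    have h4 : ∑ τ ∈ T, w τ * (F.S τ +
        (F.inner t s c).yf tp tq (tq + (s - t) / (τ - t - c)) 1) =
        (∑ τ ∈ T, w τ * F.S τ) +
          ∑ τ ∈ T, w τ * (F.inner t s c).yf tp tq (tq + (s - t) / (τ - t - c)) 1 := by
      rw [← Finset.sum_add_distrib]
      exact Finset.sum_congr rfl (fun τ _ => by ring)
    rw [h4] at h1
    have h5 := mul_le_mul_of_nonneg_left h1 (sq_nonneg (a - 1))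
    have h6 := hle F
    have h7 := F.inner_L (t := t) (s := s) (c := c) hc
    have h8 := mul_le_mul_of_nonneg_left (hx2 (F.inner t s c)) (sq_nonneg (a - 1))
    dsimp only at h6 ⊢
    generalize (∑ τ ∈ T, w τ *
      (F.inner t s c).yf tp tq (tq + (s - t) / (τ - t - c)) 1) = SY at *
    generalize (∑ τ ∈ T, w τ * Φy τ (F.inner t s c)) = SP at *
    generalize (∑ τ ∈ T, w τ * F.S τ) = SS at *
    have h9 : C1 a * (F.inner t s c).L = C1 a * (2 * F.L - F.S t - F.x t s c) := by rw [h7]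
    have h10 : (a - 1) ^ 2 * (a * (3 * (F.inner t s c).L - (F.inner t s c).S tp -
        (F.inner t s c).S tq + F.L - F.S (t + c))) + a * ((5 * a - 3) * (F.inner t s c).L) +
        (a - 1) ^ 2 * (2 * (F.inner t s c).L) ≤
        (a - 1) ^ 2 * SS + SP + (a - 1) ^ 2 * Φx (F.inner t s c) := by
      linarith
    have h11 : (a - 1) ^ 2 * (a * (3 * (F.inner t s c).L - (F.inner t s c).S tp -
        (F.inner t s c).S tq + F.L - F.S (t + c))) + a * ((5 * a - 3) * (F.inner t s c).L) +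
        (a - 1) ^ 2 * (2 * (F.inner t s c).L) =
        C1 a * (F.inner t s c).L + a * (a - 1) ^ 2 * (F.L - F.S (t + c)) -
        a * (a - 1) ^ 2 * ((F.inner t s c).S tp + (F.inner t s c).S tq) := by
      unfold C1; ring
    rw [h11, h9] at h10
    linarith

/-- a lower bound for averages of `m`, new version of the step -/
theorem LBX.toM' {a A B : ℝ} (hgood : Good a) (ha : 1 ≤ a) (h : LBX A B) :
    LBM ((2 * C1 a + a * (a - 1) ^ 2 + (C2 a - C1 a) * A) / C2 a)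
      ((2 * a * (a - 1) ^ 2 + C1 a + (C2 a - C1 a) * B) / C2 a) := by
  obtain ⟨Ψ, Φ, h1, h2, h3⟩ := h
  have hC2 : 0 < C2 a := by
    unfold C2
    nlinarith [sq_nonneg (a - 1)]
  have hk : 0 ≤ C2 a - C1 a := by
    unfold C1 C2
    nlinarith [sq_nonneg (a - 1)]
  obtain ⟨Φ₁, Φ₂, g1, g2, g3⟩ := h1.lift (fun φ hφ => newXM hgood ha hφ)
  refine ⟨fun F => (C2 a)⁻¹ * Φ₂ F, fun F => (C2 a)⁻¹ * (Φ₁ F + (C2 a - C1 a) * Φ F),
    (g2.smul (inv_nonneg.mpr hC2.le)).congr (by field_simp) (fun _ => rfl),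
    ((g1.plus (h2.smul hk)).smul (inv_nonneg.mpr hC2.le)).congr
      (by rw [one_mul]; field_simp) (fun _ => rfl), fun F => ?_⟩
  have e1 := g3 F
  have e2 := mul_le_mul_of_nonneg_left (h3 F) hk
  have e3 : (2 * C1 a + a * (a - 1) ^ 2 + (C2 a - C1 a) * A) * F.L ≤
      (Φ₁ F + (C2 a - C1 a) * Φ F) + Φ₂ F := by nlinarith
  have e4 := mul_le_mul_of_nonneg_left e3 (inv_nonneg.mpr hC2.le)
  calc (2 * C1 a + a * (a - 1) ^ 2 + (C2 a - C1 a) * A) / C2 a * F.L =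
      (C2 a)⁻¹ * ((2 * C1 a + a * (a - 1) ^ 2 + (C2 a - C1 a) * A) * F.L) := by ring
    _ ≤ (C2 a)⁻¹ * ((Φ₁ F + (C2 a - C1 a) * Φ F) + Φ₂ F) := e4
    _ = _ := by ring

theorem Fam.m_nonneg (F : Fam) (t s r : ℚ) : 0 ≤ F.m t s r := by
  unfold Fam.m
  rw [← F.H_two_Z t, sub_nonneg]
  refine H_mono (F.two_nonneg t) (fun w w' _ _ h => ?_)
  simp only [Prod.mk.injEq] at h
  exact h.2.2

theorem LBM_zero : LBM 0 0 :=
  ⟨fun F => F.m 0 1 1, fun _ => 0, Comb.of_mem ⟨0, 1, 1, by norm_num, by norm_num, rfl⟩,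
    Comb.zero, fun F => by have := F.m_nonneg 0 1 1; simpa using this⟩

/-- denominator of the fixed point -/
noncomputable def DD (a : ℝ) : ℝ := C2 a + (a - 1) * C1 a

/-- The iterated lower bound for `m`. -/
theorem LBM_iter {a : ℝ} (hgood : Good a) (ha : 1 < a) (n : ℕ) :
    LBM ((a * (2 * C1 a + a * (a - 1) ^ 2) + (C2 a - C1 a) * (a + 2)) / DD a *
        (1 - ((a - 1) * (C2 a - C1 a) / (a * C2 a)) ^ n))
      ((a * (2 * a * (a - 1) ^ 2 + C1 a) + (C2 a - C1 a) * (3 * a)) / DD a *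
        (1 - ((a - 1) * (C2 a - C1 a) / (a * C2 a)) ^ n)) := by
  have hC2 : 0 < C2 a := by
    unfold C2
    nlinarith [sq_nonneg (a - 1)]
  have hC1 : 0 < C1 a := by
    unfold C1
    nlinarith [sq_nonneg (a - 1)]
  have hD : 0 < DD a := by
    unfold DD
    have := mul_pos (sub_pos.mpr ha) hC1
    linarith
  have ha0 : 0 < a := by linarith
  induction n with
  | zero => simpa using LBM_zero
  | succ n ih =>
    have h := (ih.toX hgood ha.le).toM' hgood ha.le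
    obtain ⟨A, hA, hA'⟩ : ∃ A : ℝ, A = (a * (2 * C1 a + a * (a - 1) ^ 2) +
        (C2 a - C1 a) * (a + 2)) / DD a ∧
        A * DD a = a * (2 * C1 a + a * (a - 1) ^ 2) + (C2 a - C1 a) * (a + 2) :=
      ⟨_, rfl, div_mul_cancel₀ _ hD.ne'⟩
    obtain ⟨B, hB, hB'⟩ : ∃ B : ℝ, B = (a * (2 * a * (a - 1) ^ 2 + C1 a) +
        (C2 a - C1 a) * (3 * a)) / DD a ∧
        B * DD a = a * (2 * a * (a - 1) ^ 2 + C1 a) + (C2 a - C1 a) * (3 * a) :=
      ⟨_, rfl, div_mul_cancel₀ _ hD.ne'⟩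
    rw [← hA, ← hB] at h ⊢
    unfold DD at hA' hB'
    have hc2 := hC2.ne'
    convert h using 1
    · rw [pow_succ ((a - 1) * (C2 a - C1 a) / (a * C2 a)) n]
      generalize ((a - 1) * (C2 a - C1 a) / (a * C2 a)) ^ n = Q
      generalize C1 a = c1 at *
      generalize C2 a = c2 at *
      field_simp
      linear_combination hA'
    · rw [pow_succ ((a - 1) * (C2 a - C1 a) / (a * C2 a)) n]
      generalize ((a - 1) * (C2 a - C1 a) / (a * C2 a)) ^ n = Q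
      generalize C1 a = c1 at *
      generalize C2 a = c2 at *
      field_simp
      linear_combination hB'

/-- Closing the loop with `m ≤ S + S`. -/
theorem LBM.good {A B : ℝ} (hA : 0 < A) (h : LBM A B) : Good ((B + 2) / A) := by
  obtain ⟨Ψ, Φ, h1, h2, h3⟩ := h
  obtain ⟨Φ₁, Φ₂, g1, g2, g3⟩ := h1.lift (G₁ := SG ∅) (G₂ := SG ∅) (b₁ := 2) (b₂ := 0)
    (l := 0) (k := 1) (fun φ hφ => by
      obtain ⟨t, s, r, _, _, rfl⟩ := hφ
      exact ⟨fun F => F.S s + F.S r, fun _ => 0,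
        ((combS0 s).plus (combS0 r)).congr (by norm_num) (fun _ => rfl), Comb.zero,
        fun F => by have := F.ineq_IV t s r; simpa using this⟩)
  refine good_of_comb (Φ := fun F => A⁻¹ * (Φ F + (Φ₁ F + Φ₂ F))) ?_ (fun F => ?_)
  · refine ((h2.plus (g1.plus g2)).smul (inv_nonneg.mpr hA.le)).congr ?_ (fun _ => rfl)
    field_simp
    ring
  · have e1 := g3 F
    have e2 := h3 F
    have e3 : A * F.L ≤ Φ F + (Φ₁ F + Φ₂ F) := by linarith
    have e4 := mul_le_mul_of_nonneg_left e3 (inv_nonneg.mpr hA.le)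
    rwa [← mul_assoc, inv_mul_cancel₀ hA.ne', one_mul] at e4

end Pool.Agent.H49.Ent
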