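import Mathlib
import Pool.Agent.H49.Step3b

/-!
The arithmetic: some exponent below `1.6738` is good.
-/

namespace Pool.Agent.H49.Ent

/-- An improvement map that gains a fixed amount above `κ` leads to an exponent below `κ`. -/
theorem exists_good_of_gain {κ ε : ℝ} (hε : 0 < ε)
    (h : ∀ a, Good a → κ ≤ a → a ≤ 2 → ∃ b, Good b ∧ b ≤ a - ε) :
    ∃ a, Good a ∧ a < κ := by
  by_contra hcon
  push Not at hcon
  set Sset : Set ℝ := {a | Good a ∧ a ≤ 2} with hS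
  have hne : Sset.Nonempty := ⟨2, good_two, le_rfl⟩
  have hbdd : BddBelow Sset := ⟨κ, fun a ha => hcon a ha.1⟩
  obtain ⟨a, ha, hlt⟩ := exists_lt_of_csInf_lt hne (lt_add_of_pos_right (sInf Sset) hε)
  obtain ⟨b, hb, hle⟩ := h a ha.1 (hcon a ha.1) ha.2
  have hb2 : b ∈ Sset := ⟨hb, by linarith [ha.2]⟩
  have := csInf_le hbdd hb2
  linarith

theorem gain3b {a : ℝ} (hgood : Good a) (h1 : 1.6738 ≤ a) (h2 : a ≤ 2) :
    ∃ b, Good b ∧ b ≤ a - 1 / 1000000 := by
  have ha : 1 < a := by linarith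
  have ha0 : 0 < a := by linarith
  have hC2 : 0 < C2 a := by
    unfold C2
    nlinarith [sq_nonneg (a - 1)]
  have hC1 : 0 < C1 a := by
    unfold C1
    nlinarith [sq_nonneg (a - 1)]
  have hK : 0 ≤ C2 a - C1 a := by
    unfold C1 C2
    nlinarith [sq_nonneg (a - 1)]
  have hD : 0 < DD a := by
    unfold DD
    have := mul_pos (sub_pos.mpr ha) hC1
    linarith
  have hit := LBM_iter hgood ha 12
  -- the contraction factor
  have hq0 : 0 ≤ (a - 1) * (C2 a - C1 a) / (a * C2 a) :=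
    div_nonneg (mul_nonneg (by linarith) hK) (mul_pos ha0 hC2).le
  have hq1 : (a - 1) * (C2 a - C1 a) / (a * C2 a) ≤ 1 / 4 := by
    rw [div_le_iff₀ (mul_pos ha0 hC2)]
    unfold C1 C2
    obtain ⟨t, ht⟩ : ∃ t, t = a - 1.6738 := ⟨_, rfl⟩
    have ht0 : 0 ≤ t := by linarith
    have ht1 : t ≤ 0.3262 := by linarith
    have hat : a = 1.6738 + t := by linarith
    rw [hat]
    have t2 : t ^ 2 ≤ 0.3262 ^ 2 := pow_le_pow_left₀ ht0 ht1 2
    have t3 : t ^ 3 ≤ 0.3262 ^ 3 := pow_le_pow_left₀ ht0 ht1 3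
    have t4 : t ^ 4 ≤ 0.3262 ^ 4 := pow_le_pow_left₀ ht0 ht1 4
    nlinarith
  have hq2 : ((a - 1) * (C2 a - C1 a) / (a * C2 a)) ^ 12 ≤ (1 / 4) ^ 12 :=
    pow_le_pow_left₀ hq0 hq1 12
  have hq3 : 0 ≤ ((a - 1) * (C2 a - C1 a) / (a * C2 a)) ^ 12 := pow_nonneg hq0 12
  generalize hρ : 1 - ((a - 1) * (C2 a - C1 a) / (a * C2 a)) ^ 12 = ρ at hit
  have hρ1 : 1 - (1 / 4 : ℝ) ^ 12 ≤ ρ := by linarith
  have hρ0 : 0 < ρ := by
    have : (0 : ℝ) < 1 - (1 / 4) ^ 12 := by norm_num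
    linarith
  set NA := a * (2 * C1 a + a * (a - 1) ^ 2) + (C2 a - C1 a) * (a + 2) with hNA
  set NB := a * (2 * a * (a - 1) ^ 2 + C1 a) + (C2 a - C1 a) * (3 * a) with hNB
  have hNApos : 0 < NA := by
    have t1 : 0 < a * (2 * C1 a + a * (a - 1) ^ 2) :=
      mul_pos ha0 (by have := mul_nonneg ha0.le (sq_nonneg (a - 1)); linarith)
    have t2 : 0 ≤ (C2 a - C1 a) * (a + 2) := mul_nonneg hK (by linarith)
    linarith
  have hA : 0 < NA / DD a * ρ := mul_pos (div_pos hNApos hD) hρ0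
  refine ⟨_, hit.good hA, ?_⟩
  rw [div_le_iff₀ hA]
  -- polynomial inequality
  have key : 2 * DD a ≤ ρ * ((a - 1 / 1000000) * NA - NB) := by
    have hpos : 0 ≤ (a - 1 / 1000000) * NA - NB := by
      rw [hNA, hNB]
      unfold C1 C2
      obtain ⟨t, ht⟩ : ∃ t, t = a - 1.6738 := ⟨_, rfl⟩
      have ht0 : 0 ≤ t := by linarith
      have hat : a = 1.6738 + t := by linarith
      rw [hat]
      ring_nf
      positivity
    have h3 : 2 * DD a ≤ (1 - (1 / 4 : ℝ) ^ 12) * ((a - 1 / 1000000) * NA - NB) := by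
      rw [hNA, hNB]
      unfold DD C1 C2
      obtain ⟨t, ht⟩ : ∃ t, t = a - 1.6738 := ⟨_, rfl⟩
      have ht0 : 0 ≤ t := by linarith
      have hat : a = 1.6738 + t := by linarith
      rw [hat, ← sub_nonneg]
      ring_nf
      positivity
    exact h3.trans (mul_le_mul_of_nonneg_right hρ1 hpos)
  have e1 : NB / DD a * ρ + 2 = (NB * ρ + 2 * DD a) / DD a := by field_simp
  have e2 : (a - 1 / 1000000) * (NA / DD a * ρ) = ((a - 1 / 1000000) * (NA * ρ)) / DD a := by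
    field_simp
  rw [e1, e2]
  refine div_le_div_of_nonneg_right ?_ hD.le
  linarith

/-- Some exponent below `1.6738` is good. -/
theorem exists_good : ∃ a, Good a ∧ a < 1.6738 :=
  exists_good_of_gain (by norm_num : (0 : ℝ) < 1 / 1000000)
    (fun _ h h1 h2 => gain3b h h1 h2)

end Pool.Agent.H49.Ent
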